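import Pool.Agent.H68.SS.Df

/-!
# MP_78d38b_T4, semistable reduction above `l`: the data of the descent (no row)
-/

set_option autoImplicit false
open scoped Classical

open WeierstrassCurve IsDedekindDomain NumberField Pool.Agent.H10 Pool.Agent.H11 H78D

namespace H68SS

/-- `H78D.Dat` with the abstract local condition above `l`. -/
structure DatO (l : ℕ) (K Km L F : Type) [Field K] [NumberField K] [Field Km] [NumberField Km]
    [Field L] [NumberField L] [Field F] [NumberField F] [Algebra K F] [Algebra Km F] [Algebra L F]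
    (W : WeierstrassCurve F) (T : W.toAffine.Point) (h : F ≃ₐ[Km] F) (J : F ≃ₐ[L] F) (D : ℤ) :
    Prop where
  prime : l.Prime
  three : 3 ≤ l
  tow : Tow l K Km L F h J
  ell : W.IsElliptic
  T0 : T ≠ 0
  Tl : l • T = 0
  Th : ∃ hh : W.map (h : F →+* F) = W, pm (h : F →+* F) hh T = T
  TJ : ∃ hh : W.map (J : F →+* F) = W, pm (J : F →+* F) hh T = -T
  loc : LocOdd l W T
  good : ∀ w : HeightOneSpectrum (𝓞 F), ((D : ℤ) : 𝓞 F) ∉ w.asIdeal →
    GoodVal (w.valuation F) W l
  noE : H68TL.NoNewE l Km F ∅ (J : F ≃+* F)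
  noC : H68TL.NoUnr l Km F (J : F ≃+* F)
  fixP : H68TL.FixP D Km F

/-- `H78D.Dat2` with the abstract local condition above `l`. -/
structure DatE (l : ℕ) (K Km L F : Type) [Field K] [NumberField K] [Field Km] [NumberField Km]
    [Field L] [NumberField L] [Field F] [NumberField F] [Algebra K F] [Algebra Km F] [Algebra L F]
    (W : WeierstrassCurve F) (T : W.toAffine.Point) (h : F ≃ₐ[Km] F) (J : F ≃ₐ[L] F) (D : ℤ) :
    Prop where
  prime : l.Prime
  three : 3 ≤ l
  tow : Tow l K Km L F h J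
  ell : W.IsElliptic
  T0 : T ≠ 0
  Tl : l • T = 0
  Th : ∃ hh : W.map (h : F →+* F) = W, pm (h : F →+* F) hh T = T
  TJ : ∃ hh : W.map (J : F →+* F) = W, pm (J : F →+* F) hh T = T
  loc : LocEven l W T
  good : ∀ w : HeightOneSpectrum (𝓞 F), ((D : ℤ) : 𝓞 F) ∉ w.asIdeal →
    GoodVal (w.valuation F) W l
  noE : H68TL.NoNewE l Km F ∅ (J : F ≃+* F)
  noC : H68TL.NoUnr l Km F (J : F ≃+* F)
  fixP : H68TL.FixP D Km F

end H68SS
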