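import Pool.Agent.H68.SS.OS3
import Pool.Agent.H68.SS.ES3
import Pool.Agent.H78.TD.Fin

/-!
# MP_78d38b_T4, semistable reduction above `l`: conjugation does not change the classes (odd case)
-/

set_option autoImplicit false
open scoped Classical

open WeierstrassCurve IsDedekindDomain NumberField Pool.Agent.H10 Pool.Agent.H11 H78D

namespace H68SS

theorem ct_lO {K Km L F : Type} [Field K] [NumberField K] [Field Km] [NumberField Km] [Field L]
    [NumberField L] [Field F] [NumberField F] [Algebra K L] [Algebra K F] [Algebra L F]
    [IsScalarTower K L F] [Algebra K Km] [Algebra Km F] [IsScalarTower K Km F] [Normal K L]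
    [IsGalois K F] {V : WeierstrassCurve K} {V' : WeierstrassCurve L} {W : WeierstrassCurve F}
    {l : ℕ} {T : W.toAffine.Point} {h : F ≃ₐ[Km] F} {J : F ≃ₐ[L] F} {D : ℤ}
    (H : DatO l K Km L F W T h J D) (hVL : V.map (algebraMap K L) = V')
    (hVF : V'.map (algebraMap L F) = W) : CTl l K L V' (inv_up hVL) := by
  have hV : V.map (algebraMap K F) = W := by
    rw [← hVF, ← hVL, WeierstrassCurve.map_map, ← IsScalarTower.algebraMap_eq K L F]
  have : IsGalois Km F := IsGalois.tower_top_of_isGalois K Km F
  exact ctl_of_core hVL hVF hV (fun f hf g => coreO H hV hf g)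

end H68SS
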