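import Mathlib

/-!
ROW Nda (valuations of the coordinates near a node; about 170 lines, Mathlib only).  PROOF.
`E : y² = x³ + a x² + b x + c`, `v a = 1`, `v b ≤ v c < 1`, `v 2 = 1`.  All estimates by `Valuation.map_add_lt`, `Valuation.map_add_le`, `Valuation.map_add_eq_of_lt_left/right` (the value of a sum with one dominating term), `map_mul`, `map_pow`.
(1) `nd_add`: `1 ≤ v x`, `v r < 1`. Then `v (x - r) = v x`, and with `e`, `e'`: `((y-s)/(x-r))² - a - x - r = N / (x-r)²`, `N = (y-s)² - (a+x+r)(x-r)²`. Using `y² = x³+ax²+bx+c` one finds `N = b x + c - 2 y s + s² + x² r + 2 a x r + x r² - a r² - r³` (`linear_combination e`). `v N < v x ²`: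
`v (y)² ≤ (v x)³` (each term of `x³+ax²+bx+c` is `≤ (v x)³` as `1 ≤ v x`), `v s < 1` (`v s ² < 1` as all terms of `r³+ar²+br+c` are `< 1`), so `v (y s)² < (v x)³ ≤ (v x)⁴`, `v (y s) < (v x)²` (`lt_of_pow_lt_pow_left`); the others are clear.
(2) `nd_chord`: `λ = (y+y')/(x'-x)`; `v (λ² - a - x - x') = v (λ² - a)` if `1 ≤ v (λ² - a)`, since `v x = v x' < 1`. So it is enough that `¬ v (λ² - a) < 1`.
 Case (i) `v c < v x ²` (so `x, x' ≠ 0`): `Q = (y+y')² - a (x'-x)² = (x³+bx+c) + (x'³+bx'+c) + 2 (y y' + a x x')` (`linear_combination e + e'`), `y²/x² - a = x + b/x + c/x²` has value `< 1` (`v b ≤ v c < v x ²`, `v x < 1`), so `v (y/x)² = 1`, `v (y/x) = 1`, `v (y'/x') = 1`;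
  `(y/x)(y'/x') + a = 2 a + ((y/x)² - a) + (y/x) (y'/x' - y/x)`, value `1`; so `v (y y' + a x x') = v x ²`, and `v Q = v x ²` (the other terms are smaller: `(v x)³`, `v b v x`, `v c`). `v (x'-x) ≤ v x`, so `v (λ²-a) = v Q / v (x'-x)² ≥ 1`.
 Case (ii) `v x ² ≤ v c`: suppose `v (λ² - a) < 1`, so `v λ = 1`. All terms of `x³+ax²+bx+c` are `≤ v c`, so `v y ² ≤ v c`, `v y' ² ≤ v c`. `U = y + λ x`, `V = y - λ x`, `U' = y' + λ x'`, `V' = y' - λ x'`; `y + y' = λ (x'-x)` gives `V' = -U` and `V + U' = 2 λ (x' - x)`. `U V = y² - λ² x² = x³ + (a - λ²) x² + b x + c`,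
  `v (U V) = v c` (the other terms are smaller: `v x ³ < v c`..., here `c ≠ 0`: if `c = 0` then `v x ² ≤ 0`, `x = 0`, `x' = 0`, contradiction with `x' ≠ x`), `v U ², v V ² ≤ v c` so `v U ² = v c`. `U V - U' V' = (x³ - x'³) + (a-λ²)(x² - x'²) + b (x - x')` and `= U V + U' U = U (V + U') = 2 λ U (x'-x)`. So
  `v U v (x'-x) ≤ v (x'-x) max (v x ², v (a-λ²) v x, v b)`, so `v U ≤ max (..)`, `(v U)² = v c`: but `v x ² ≤ v c < v U`, `v (a-λ²) v x < v U` (`v x ≤ v U`), `v b ≤ v c < v U`: contradiction. (`v c = (v U)² < v U` as `v U < 1`.)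
(3) `nd_tangent`: `λ = (3x²+2ax+b)/(2y)`. Case (i) `v c < v x ²`: `v ((-y)/x - y/x) = v (2 y/x) = 1` as in (2), contradiction. Case (ii) `v x ² ≤ v c`: `4 y² (λ² - a) = 9x⁴ + 8ax³ + 6bx² + b² - 4ac` (`(3x²+2ax+b)² - 4 a y²` with `e`), value `v c` (if `c = 0`: `x = 0`, `y = 0`, contradiction), `v y ² ≤ v c`, so `1 ≤ v (λ²-a)`.
-/

set_option autoImplicit false

namespace H68SS

variable {L Γ : Type*} [Field L] [LinearOrderedCommGroupWithZero Γ] (v : Valuation L Γ)

private lemma mul_lt_self_aux {a b : Γ} (hb : b ≠ 0) (ha : a < 1) : a * b < b := by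
  simpa using mul_lt_mul_of_pos_right ha (zero_lt_iff.2 hb)

private lemma mul_lt_aux {a b g : Γ} (ha : a < 1) (hb : b ≤ g) (hg : g ≠ 0) : a * b < g :=
  lt_of_le_of_lt (mul_le_mul' le_rfl hb) (mul_lt_self_aux hg ha)

private lemma sq_lt_aux {u w : Γ} (h : u ^ 2 < w ^ 2) : u < w :=
  lt_of_pow_lt_pow_left₀ 2 zero_le h

private lemma sq_le_aux {u w : Γ} (h : u ^ 2 ≤ w ^ 2) : u ≤ w :=
  le_of_not_gt fun hlt => absurd (pow_lt_pow_left₀ hlt zero_le two_ne_zero) (not_lt.2 h)

theorem nd_add {a b c x y r s : L} (ha : v a = 1) (hb : v b ≤ v c) (hc : v c < 1)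
    (h2 : v 2 = 1) (e : y ^ 2 = x ^ 3 + a * x ^ 2 + b * x + c)
    (e' : s ^ 2 = r ^ 3 + a * r ^ 2 + b * r + c) (hx : 1 ≤ v x) (hr : v r < 1) :
    v (((y - s) / (x - r)) ^ 2 - a - x - r) < 1 := by
  have hb1 : v b < 1 := lt_of_le_of_lt hb hc
  have hX0 : v x ≠ 0 := (lt_of_lt_of_le zero_lt_one hx).ne'
  have hX2 : (1 : Γ) ≤ v x ^ 2 := one_le_pow₀ hx
  have hXX : v x ≤ v x ^ 2 := by
    rw [pow_two]
    calc v x = v x * 1 := (mul_one _).symm
      _ ≤ v x * v x := mul_le_mul' le_rfl hx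
  have hxr : v (x - r) = v x := v.map_sub_eq_of_lt_left (lt_of_lt_of_le hr hx)
  have hxr0 : x - r ≠ 0 := by
    intro h
    rw [h, map_zero] at hxr
    exact hX0 hxr.symm
  have hR2 : v r ^ 2 < 1 := pow_lt_one₀ zero_le hr two_ne_zero
  have hR3 : v r ^ 3 < 1 := pow_lt_one₀ zero_le hr three_ne_zero
  have hs2 : v (s ^ 2) < 1 := by
    rw [e']
    refine v.map_add_lt (v.map_add_lt (v.map_add_lt ?_ ?_) ?_) hc
    · rwa [map_pow]
    · rwa [map_mul, ha, one_mul, map_pow]
    · rw [map_mul]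
      exact mul_lt_aux hb1 hr.le one_ne_zero
  have hs : v s < 1 := by
    rw [map_pow] at hs2
    exact sq_lt_aux (by rwa [one_pow])
  have hy2 : v y ^ 2 ≤ v x ^ 3 := by
    rw [← map_pow, e]
    have h1 : v x ^ 2 ≤ v x ^ 3 := pow_le_pow_right₀ hx (by norm_num)
    have h2' : v x ≤ v x ^ 3 := hXX.trans h1
    have h3 : (1 : Γ) ≤ v x ^ 3 := one_le_pow₀ hx
    refine v.map_add_le (v.map_add_le (v.map_add_le ?_ ?_) ?_) ?_
    · rw [map_pow]
    · rw [map_mul, ha, one_mul, map_pow]; exact h1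
    · rw [map_mul]
      calc v b * v x ≤ 1 * v x := mul_le_mul' hb1.le le_rfl
        _ = v x := one_mul _
        _ ≤ v x ^ 3 := h2'
    · exact hc.le.trans h3
  have hys : v (y * s) < v x ^ 2 := by
    refine sq_lt_aux ?_
    rw [map_mul, mul_pow]
    have hs2' : v s ^ 2 < 1 := pow_lt_one₀ zero_le hs two_ne_zero
    have h1 : v s ^ 2 * v y ^ 2 < v x ^ 3 := mul_lt_aux hs2' hy2 (pow_ne_zero 3 hX0)
    calc v y ^ 2 * v s ^ 2 = v s ^ 2 * v y ^ 2 := mul_comm _ _
      _ < v x ^ 3 := h1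
      _ ≤ v x ^ 4 := pow_le_pow_right₀ hx (by norm_num)
      _ = (v x ^ 2) ^ 2 := by rw [← pow_mul]
  set N : L := b * x + c - 2 * (y * s) + s ^ 2 + x ^ 2 * r + 2 * (a * (x * r)) + x * r ^ 2
    - a * r ^ 2 - r ^ 3 with hN
  have key : ((y - s) / (x - r)) ^ 2 - a - x - r = N / (x - r) ^ 2 := by
    have h1 : (y - s) ^ 2 - (a + x + r) * (x - r) ^ 2 = N := by
      rw [hN]
      linear_combination e
    rw [← h1, div_pow]
    field_simp
    ring
  have hxr' : v (x * r) < v x ^ 2 := by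
    rw [map_mul, mul_comm]
    exact mul_lt_aux hr hXX (pow_ne_zero 2 hX0)
  have hNv : v N < v x ^ 2 := by
    rw [hN]
    refine v.map_sub_lt (v.map_sub_lt (v.map_add_lt (v.map_add_lt (v.map_add_lt (v.map_add_lt
      (v.map_sub_lt (v.map_add_lt ?_ ?_) ?_) ?_) ?_) ?_) ?_) ?_) ?_
    · rw [map_mul]
      exact mul_lt_aux hb1 hXX (pow_ne_zero 2 hX0)
    · exact lt_of_lt_of_le hc hX2
    · rw [map_mul, h2, one_mul]
      exact hys
    · exact lt_of_lt_of_le hs2 hX2
    · rw [map_mul, mul_comm, map_pow]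
      exact mul_lt_aux hr le_rfl (pow_ne_zero 2 hX0)
    · rw [map_mul, h2, one_mul, map_mul, ha, one_mul]
      exact hxr'
    · rw [map_mul, map_pow, mul_comm]
      exact mul_lt_aux hR2 hXX (pow_ne_zero 2 hX0)
    · rw [map_mul, ha, one_mul, map_pow]
      exact lt_of_lt_of_le hR2 hX2
    · rw [map_pow]
      exact lt_of_lt_of_le hR3 hX2
  rw [key, map_div₀, map_pow, hxr]
  exact (div_lt_one₀ (zero_lt_iff.2 (pow_ne_zero 2 hX0))).2 hNv

private lemma nd_ratio {a b c x y : L} (ha : v a = 1) (hb : v b ≤ v c)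
    (e : y ^ 2 = x ^ 3 + a * x ^ 2 + b * x + c) (hx : v x < 1) (hcx : v c < v x ^ 2) :
    x ≠ 0 ∧ v ((y / x) ^ 2 - a) < 1 ∧ v (y / x) = 1 := by
  have hX2 : v x ^ 2 ≠ 0 := (lt_of_le_of_lt zero_le hcx).ne'
  have hX0 : v x ≠ 0 := fun h => hX2 (by rw [h]; simp)
  have hx0 : x ≠ 0 := (v.ne_zero_iff).1 hX0
  have h1 : (y / x) ^ 2 - a = (x ^ 3 + b * x + c) / x ^ 2 := by
    rw [div_pow, e]
    field_simp
    ring
  have h2 : v ((y / x) ^ 2 - a) < 1 := by
    rw [h1, map_div₀, map_pow]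
    refine (div_lt_one₀ (zero_lt_iff.2 hX2)).2 ?_
    refine v.map_add_lt (v.map_add_lt ?_ ?_) hcx
    · rw [map_pow, pow_succ, mul_comm]
      exact mul_lt_self_aux hX2 hx
    · rw [map_mul, mul_comm]
      exact mul_lt_aux hx (hb.trans hcx.le) hX2
  have h3 : v ((y / x) ^ 2) = 1 := by
    have : (y / x) ^ 2 = a + ((y / x) ^ 2 - a) := by ring
    rw [this, v.map_add_eq_of_lt_left (by rw [ha]; exact h2), ha]
  refine ⟨hx0, h2, ?_⟩
  rw [map_pow] at h3
  exact le_antisymm (sq_le_aux (by rw [h3, one_pow])) (sq_le_aux (by rw [h3, one_pow]))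

theorem nd_chord {a b c x y x' y' : L} (ha : v a = 1) (hb : v b ≤ v c) (hc : v c < 1)
    (h2 : v 2 = 1) (e : y ^ 2 = x ^ 3 + a * x ^ 2 + b * x + c)
    (e' : y' ^ 2 = x' ^ 3 + a * x' ^ 2 + b * x' + c) (hx : v x < 1) (hxx : v x' = v x)
    (hr : v c < v x ^ 2 → v (y' / x' - y / x) < 1) (hne : x' ≠ x) :
    1 ≤ v (((y + y') / (x' - x)) ^ 2 - a - x - x') := by
  by_contra hcon
  rw [not_le] at hcon
  have hd0 : x' - x ≠ 0 := sub_ne_zero.2 hne
  set l : L := (y + y') / (x' - x) with hl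
  have hl' : y + y' = l * (x' - x) := by
    rw [hl]
    field_simp
  have hla : v (l ^ 2 - a) < 1 := by
    have : l ^ 2 - a = (l ^ 2 - a - x - x') + x + x' := by ring
    rw [this]
    exact v.map_add_lt (v.map_add_lt hcon hx) (by rw [hxx]; exact hx)
  clear_value l
  by_cases hcx : v c < v x ^ 2
  · obtain ⟨hx0, h3, h4⟩ := nd_ratio v ha hb e hx hcx
    obtain ⟨hx0', h3', h4'⟩ := nd_ratio v ha hb e' (by rw [hxx]; exact hx) (by rw [hxx]; exact hcx)
    have hX0 : v x ≠ 0 := (v.ne_zero_iff).2 hx0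
    have hX2 : v x ^ 2 ≠ 0 := pow_ne_zero 2 hX0
    have hr' := hr hcx
    have h5 : v ((y / x) * (y' / x') + a) = 1 := by
      have h6 : (y / x) * (y' / x') + a =
          2 * a + (((y / x) ^ 2 - a) + (y / x) * (y' / x' - y / x)) := by ring
      have h7 : v (2 * a) = 1 := by rw [map_mul, h2, ha, one_mul]
      rw [h6, v.map_add_eq_of_lt_left, h7]
      rw [h7]
      refine v.map_add_lt h3 ?_
      rw [map_mul, h4, one_mul]
      exact hr'
    have h8 : v (2 * (y * y' + a * (x * x'))) = v x ^ 2 := by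
      have h9 : y * y' + a * (x * x') = (x * x') * ((y / x) * (y' / x') + a) := by
        field_simp
      rw [map_mul, h2, one_mul, h9, map_mul, h5, mul_one, map_mul, hxx, pow_two]
    have hQ : v ((y + y') ^ 2 - a * (x' - x) ^ 2) = v x ^ 2 := by
      have h10 : (y + y') ^ 2 - a * (x' - x) ^ 2 =
          2 * (y * y' + a * (x * x')) + ((x ^ 3 + b * x + c) + (x' ^ 3 + b * x' + c)) := by
        linear_combination e + e'
      have h12 : ∀ z : L, v z = v x → v (z ^ 3 + b * z + c) < v x ^ 2 := by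
        intro z hz
        refine v.map_add_lt (v.map_add_lt ?_ ?_) hcx
        · rw [map_pow, hz, pow_succ, mul_comm]
          exact mul_lt_self_aux hX2 hx
        · rw [map_mul, hz, mul_comm]
          exact mul_lt_aux hx (hb.trans hcx.le) hX2
      rw [h10, v.map_add_eq_of_lt_left, h8]
      rw [h8]
      exact v.map_add_lt (h12 x rfl) (h12 x' hxx)
    have h11 : (y + y') ^ 2 - a * (x' - x) ^ 2 = (l ^ 2 - a) * (x' - x) ^ 2 := by
      rw [hl']
      ring
    have h13 : v (x' - x) ≤ v x := v.map_sub_le hxx.le le_rfl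
    have h14 : v (x' - x) ^ 2 ≤ v x ^ 2 := pow_le_pow_left₀ zero_le h13 2
    rw [h11, map_mul, map_pow] at hQ
    exact absurd hQ (mul_lt_aux hla h14 hX2).ne
  · rw [not_lt] at hcx
    -- values of `y`
    have hc0 : v c ≠ 0 := by
      intro h
      rw [h] at hcx
      have h1 : v x ^ 2 = 0 := le_antisymm hcx zero_le
      have h3 : v x = 0 := by
        rcases eq_or_ne (v x) 0 with h | h
        · exact h
        · exact absurd h1 (pow_ne_zero 2 h)
      have h4 : x = 0 := (v.zero_iff).1 h3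
      have h5 : x' = 0 := (v.zero_iff).1 (by rw [hxx, h3])
      exact hne (by rw [h4, h5])
    have hX2c : v x ^ 2 ≤ v c := hcx
    have hy : ∀ z w : L, v z = v x → w ^ 2 = z ^ 3 + a * z ^ 2 + b * z + c → v w ^ 2 ≤ v c := by
      intro z w hz hw
      rw [← map_pow, hw]
      refine v.map_add_le (v.map_add_le (v.map_add_le ?_ ?_) ?_) le_rfl
      · rw [map_pow, hz, pow_succ]
        calc v x ^ 2 * v x ≤ v c * 1 := mul_le_mul' hX2c hx.le
          _ = v c := mul_one _
      · rw [map_mul, ha, one_mul, map_pow, hz]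
        exact hX2c
      · rw [map_mul, hz]
        calc v b * v x ≤ v c * 1 := mul_le_mul' hb hx.le
          _ = v c := mul_one _
    have hy1 := hy x y rfl e
    have hy1' := hy x' y' hxx e'
    have hl1 : v l = 1 := by
      have h3 : v (l ^ 2) = 1 := by
        have : l ^ 2 = a + (l ^ 2 - a) := by ring
        rw [this, v.map_add_eq_of_lt_left (by rw [ha]; exact hla), ha]
      rw [map_pow] at h3
      exact le_antisymm (sq_le_aux (by rw [h3, one_pow])) (sq_le_aux (by rw [h3, one_pow]))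
    have hla' : v (a - l ^ 2) < 1 := by rw [v.map_sub_swap]; exact hla
    have hUV : v ((y + l * x) * (y - l * x)) = v c := by
      have h1 : (y + l * x) * (y - l * x) = c + (x ^ 3 + (a - l ^ 2) * x ^ 2 + b * x) := by
        linear_combination e
      rw [h1, v.map_add_eq_of_lt_left]
      refine v.map_add_lt (v.map_add_lt ?_ ?_) ?_
      · rw [map_pow, pow_succ, mul_comm]
        exact mul_lt_aux hx hX2c hc0
      · rw [map_mul, map_pow]
        exact mul_lt_aux hla' hX2c hc0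
      · rw [map_mul, mul_comm]
        exact mul_lt_aux hx hb hc0
    have hsq : ∀ w : L, v w ≤ max (v y) (v x) → v w ^ 2 ≤ v c := by
      intro w hw
      rcases le_max_iff.1 hw with h | h
      · exact (pow_le_pow_left₀ zero_le h 2).trans hy1
      · exact (pow_le_pow_left₀ zero_le h 2).trans hX2c
    have hlx : v (l * x) = v x := by rw [map_mul, hl1, one_mul]
    have hU2 : v (y + l * x) ^ 2 ≤ v c := hsq _ (by
      have := v.map_add y (l * x)
      rwa [hlx] at this)
    have hV2 : v (y - l * x) ^ 2 ≤ v c := hsq _ (by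
      have := v.map_sub y (l * x)
      rwa [hlx] at this)
    have hUc : v (y + l * x) ^ 2 = v c := by
      refine le_antisymm hU2 (le_of_not_gt fun hlt => ?_)
      have h1 : v (y + l * x) ^ 2 * v (y - l * x) ^ 2 = v c * v c := by
        rw [← mul_pow, ← map_mul, hUV, pow_two]
      have h3 : v (y + l * x) ^ 2 * v (y - l * x) ^ 2 < v c * v c := by
        calc v (y + l * x) ^ 2 * v (y - l * x) ^ 2 ≤ v (y + l * x) ^ 2 * v c :=
              mul_le_mul' le_rfl hV2
          _ < v c * v c := mul_lt_mul_of_pos_right hlt (zero_lt_iff.2 hc0)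
      exact absurd h1 h3.ne
    set u : Γ := v (y + l * x) with hu
    have hu0 : u ≠ 0 := by
      intro h
      rw [h] at hUc
      exact hc0 (by rw [← hUc]; simp)
    have hu1 : u < 1 := sq_lt_aux (by rw [hUc, one_pow]; exact hc)
    have hcu : v c < u := by
      rw [← hUc, pow_two]
      exact mul_lt_self_aux hu0 hu1
    have hXu : v x ≤ u := sq_le_aux (by rw [hUc]; exact hX2c)
    have hfin : 2 * l * (y + l * x) =
        -((x ^ 2 + x * x' + x' ^ 2) + (a - l ^ 2) * (x + x') + b) := by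
      have h1 : (2 * l * (y + l * x) +
          ((x ^ 2 + x * x' + x' ^ 2) + (a - l ^ 2) * (x + x') + b)) * (x' - x) = 0 := by
        have hy' : y' = l * (x' - x) - y := by linear_combination hl'
        have h3 := e'
        rw [hy'] at h3
        linear_combination e - h3
      rcases mul_eq_zero.1 h1 with h | h
      · linear_combination h
      · exact absurd h hd0
    have hv1 : v (2 * l * (y + l * x)) = u := by
      rw [map_mul, map_mul, h2, hl1, one_mul, one_mul]
    have hv2 : v (2 * l * (y + l * x)) < u := by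
      rw [hfin, Valuation.map_neg]
      have hxxs : v (x + x') ≤ v x := v.map_add_le le_rfl hxx.le
      refine v.map_add_lt (v.map_add_lt (v.map_add_lt (v.map_add_lt ?_ ?_) ?_) ?_) ?_
      · rw [map_pow]
        exact lt_of_le_of_lt hX2c hcu
      · rw [map_mul, hxx, ← pow_two]
        exact lt_of_le_of_lt hX2c hcu
      · rw [map_pow, hxx]
        exact lt_of_le_of_lt hX2c hcu
      · rw [map_mul]
        exact mul_lt_aux hla' (hxxs.trans hXu) hu0
      · exact lt_of_le_of_lt hb hcu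
    exact absurd hv1 hv2.ne

theorem nd_tangent {a b c x y : L} (ha : v a = 1) (hb : v b ≤ v c) (hc : v c < 1)
    (h2 : v 2 = 1) (e : y ^ 2 = x ^ 3 + a * x ^ 2 + b * x + c) (hx : v x < 1)
    (hr : v c < v x ^ 2 → v (-y / x - y / x) < 1) (hy : y ≠ 0) :
    1 ≤ v (((3 * x ^ 2 + 2 * a * x + b) / (2 * y)) ^ 2 - a - 2 * x) := by
  by_contra hcon
  rw [not_le] at hcon
  set l : L := (3 * x ^ 2 + 2 * a * x + b) / (2 * y) with hl
  have h20 : (2 : L) ≠ 0 := by
    intro h
    rw [h, map_zero] at h2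
    exact zero_ne_one h2
  have hl' : l * (2 * y) = 3 * x ^ 2 + 2 * a * x + b := by
    rw [hl]
    field_simp
  have hla : v (l ^ 2 - a) < 1 := by
    have : l ^ 2 - a = (l ^ 2 - a - 2 * x) + 2 * x := by ring
    rw [this]
    exact v.map_add_lt hcon (by rw [map_mul, h2, one_mul]; exact hx)
  by_cases hcx : v c < v x ^ 2
  · obtain ⟨hx0, h3, h4⟩ := nd_ratio v ha hb e hx hcx
    have h5 := hr hcx
    have h6 : -y / x - y / x = -(2 * (y / x)) := by ring
    rw [h6, Valuation.map_neg, map_mul, h2, one_mul, h4] at h5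
    exact lt_irrefl _ h5
  · rw [not_lt] at hcx
    have hc0 : v c ≠ 0 := by
      intro h
      have hc00 : c = 0 := (v.zero_iff).1 h
      rw [h] at hcx
      have h1 : v x ^ 2 = 0 := le_antisymm hcx zero_le
      have h3 : v x = 0 := by
        rcases eq_or_ne (v x) 0 with h | h
        · exact h
        · exact absurd h1 (pow_ne_zero 2 h)
      have h4 : x = 0 := (v.zero_iff).1 h3
      rw [h4, hc00] at e
      have h5 : y ^ 2 = 0 := by
        rw [e]
        ring
      exact hy (pow_eq_zero_iff two_ne_zero |>.1 h5)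
    have hX21 : v x ^ 2 < 1 := pow_lt_one₀ zero_le hx two_ne_zero
    have h3 : v (3 : L) ≤ 1 := by
      have : (3 : L) = 1 + 2 := by norm_num
      rw [this]
      exact v.map_add_le (by rw [map_one]) h2.le
    have h4 : v (4 : L) = 1 := by
      have : (4 : L) = 2 * 2 := by norm_num
      rw [this, map_mul, h2, one_mul]
    have h8 : v (8 : L) = 1 := by
      have : (8 : L) = 4 * 2 := by norm_num
      rw [this, map_mul, h4, h2, one_mul]
    have h9 : v (9 : L) ≤ 1 := by
      have : (9 : L) = 3 * 3 := by norm_num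
      rw [this, map_mul]
      exact mul_le_one' h3 h3
    have h6 : v (6 : L) ≤ 1 := by
      have : (6 : L) = 2 * 3 := by norm_num
      rw [this, map_mul, h2, one_mul]
      exact h3
    have hy2 : v y ^ 2 ≤ v c := by
      rw [← map_pow, e]
      refine v.map_add_le (v.map_add_le (v.map_add_le ?_ ?_) ?_) le_rfl
      · rw [map_pow, pow_succ]
        calc v x ^ 2 * v x ≤ v c * 1 := mul_le_mul' hcx hx.le
          _ = v c := mul_one _
      · rw [map_mul, ha, one_mul, map_pow]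
        exact hcx
      · rw [map_mul]
        calc v b * v x ≤ v c * 1 := mul_le_mul' hb hx.le
          _ = v c := mul_one _
    have hkey : 4 * y ^ 2 * (l ^ 2 - a) =
        -(4 * (a * c)) + (9 * x ^ 4 + 8 * (a * x ^ 3) + 6 * (b * x ^ 2) + b ^ 2) := by
      have h10 : 4 * y ^ 2 * (l ^ 2 - a) = (l * (2 * y)) ^ 2 - 4 * a * y ^ 2 := by ring
      rw [h10, hl', e]
      ring
    have hval : v (4 * y ^ 2 * (l ^ 2 - a)) = v c := by
      have h11 : v (-(4 * (a * c))) = v c := by
        rw [Valuation.map_neg, map_mul, map_mul, h4, ha, one_mul, one_mul]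
      rw [hkey, v.map_add_eq_of_lt_left, h11]
      rw [h11]
      refine v.map_add_lt (v.map_add_lt (v.map_add_lt ?_ ?_) ?_) ?_
      · rw [map_mul, map_pow]
        calc v 9 * v x ^ 4 ≤ 1 * v x ^ 4 := mul_le_mul' h9 le_rfl
          _ = v x ^ 2 * v x ^ 2 := by rw [one_mul, ← pow_add]
          _ < v c := mul_lt_aux hX21 hcx hc0
      · rw [map_mul, h8, one_mul, map_mul, ha, one_mul, map_pow, pow_succ, mul_comm]
        exact mul_lt_aux hx hcx hc0
      · rw [map_mul, map_mul, map_pow]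
        calc v 6 * (v b * v x ^ 2) ≤ 1 * (v b * v x ^ 2) := mul_le_mul' h6 le_rfl
          _ = v x ^ 2 * v b := by rw [one_mul, mul_comm]
          _ < v c := mul_lt_aux hX21 hb hc0
      · rw [map_pow, pow_two]
        exact mul_lt_aux (lt_of_le_of_lt hb hc) hb hc0
    rw [map_mul, map_mul, h4, one_mul, map_pow, mul_comm] at hval
    exact absurd hval (mul_lt_aux hla hy2 hc0).ne

end H68SS
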