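import Pool.Agent.H68.SS.Df
import Pool.Agent.H68.SS.Nda

/-!
ROW Ndb (a point `t P - P` does not reduce to the node; uses only the statements of Nda).
-/

set_option autoImplicit false
open scoped Classical

open WeierstrassCurve IsDedekindDomain NumberField Pool.Agent.H10 Pool.Agent.H11

namespace H68SS

section val

variable {F L : Type} [Field F] [NumberField F] [Field L] [Algebra F L]
  {w : HeightOneSpectrum (𝓞 F)} {A : ValuationSubring L} {t : L →ₐ[F] L}

lemma ndb_le_one (hI : Iner w A t) (z : F) :
    A.valuation (algebraMap F L z) ≤ 1 ↔ w.valuation F z ≤ 1 := by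
  rw [ValuationSubring.valuation_le_one_iff, hI.under]

lemma ndb_lt_one (hI : Iner w A t) (z : F) :
    A.valuation (algebraMap F L z) < 1 ↔ w.valuation F z < 1 := by
  by_cases hz : z = 0
  · subst hz
    simp
  · have hz' : algebraMap F L z ≠ 0 := (map_ne_zero _).2 hz
    have h1 := ndb_le_one hI z⁻¹
    rw [map_inv₀, map_inv₀, map_inv₀] at h1
    have e1 : (A.valuation (algebraMap F L z))⁻¹ ≤ 1 ↔ 1 ≤ A.valuation (algebraMap F L z) :=
      inv_le_one₀ (zero_lt_iff.2 ((Valuation.ne_zero_iff _).2 hz'))
    have e2 : (w.valuation F z)⁻¹ ≤ 1 ↔ 1 ≤ w.valuation F z :=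
      inv_le_one₀ (zero_lt_iff.2 ((Valuation.ne_zero_iff _).2 hz))
    rw [e1, e2] at h1
    rw [← not_le, ← not_le, h1]

lemma ndb_eq_one (hI : Iner w A t) (z : F) (h : w.valuation F z = 1) :
    A.valuation (algebraMap F L z) = 1 := by
  apply le_antisymm
  · exact (ndb_le_one hI z).2 h.le
  · rw [← not_lt, ndb_lt_one hI, h]
    exact lt_irrefl _

lemma ndb_le (hI : Iner w A t) {z z' : F} (h : w.valuation F z ≤ w.valuation F z') :
    A.valuation (algebraMap F L z) ≤ A.valuation (algebraMap F L z') := by
  by_cases hz : z' = 0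
  · subst hz
    rw [map_zero, le_zero_iff, Valuation.zero_iff] at h
    rw [h]
  · have hz' : algebraMap F L z' ≠ 0 := (map_ne_zero _).2 hz
    have h1 : w.valuation F (z / z') ≤ 1 := by
      rw [map_div₀]
      exact div_le_one_of_le₀ h zero_le
    have h2 := (ndb_le_one hI (z / z')).2 h1
    rw [map_div₀, map_div₀, div_le_one₀ (zero_lt_iff.2 ((Valuation.ne_zero_iff _).2 hz'))] at h2
    exact h2

end val

theorem node_sub {F L : Type} [Field F] [NumberField F] [Field L] [Algebra F L]
    {w : HeightOneSpectrum (𝓞 F)} {A : ValuationSubring L} {t : L →ₐ[F] L} (hI : Iner w A t)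
    (W : WeierstrassCurve F) (h1 : W.a₁ = 0) (h3 : W.a₃ = 0) (ha : w.valuation F W.a₂ = 1)
    (hb : w.valuation F W.a₄ ≤ w.valuation F W.a₆) (hc : w.valuation F W.a₆ < 1)
    (h2 : w.valuation F 2 = 1) (P : (W.baseChange L).toAffine.Point) {x y : L}
    (hxy : (W.baseChange L).toAffine.Nonsingular x y)
    (hR : Affine.Point.some x y hxy = mp W t P - P) : 1 ≤ A.valuation x := by
  by_contra hcon
  rw [not_le] at hcon
  have a1 : (W.baseChange L).toAffine.a₁ = 0 := by
    change algebraMap F L W.a₁ = 0
    rw [h1, map_zero]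
  have a3 : (W.baseChange L).toAffine.a₃ = 0 := by
    change algebraMap F L W.a₃ = 0
    rw [h3, map_zero]
  obtain ⟨a, haa⟩ : ∃ a, a = (W.baseChange L).toAffine.a₂ := ⟨_, rfl⟩
  obtain ⟨b, hbb⟩ : ∃ b, b = (W.baseChange L).toAffine.a₄ := ⟨_, rfl⟩
  obtain ⟨c, hcc⟩ : ∃ c, c = (W.baseChange L).toAffine.a₆ := ⟨_, rfl⟩
  have va : A.valuation a = 1 := by
    rw [haa]
    exact ndb_eq_one hI _ ha
  have vb : A.valuation b ≤ A.valuation c := by
    rw [hbb, hcc]
    exact ndb_le hI hb
  have vc : A.valuation c < 1 := by
    rw [hcc]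
    exact (ndb_lt_one hI _).2 hc
  have v2 : A.valuation (2 : L) = 1 := by
    have := ndb_eq_one hI _ h2
    rwa [map_ofNat] at this
  have heq : ∀ {x y : L}, (W.baseChange L).toAffine.Nonsingular x y →
      y ^ 2 = x ^ 3 + a * x ^ 2 + b * x + c := by
    intro x y h
    have := ((W.baseChange L).toAffine.equation_iff x y).1 h.1
    rw [a1, a3, ← haa, ← hbb, ← hcc] at this
    linear_combination this
  have hneg : ∀ x y : L, (W.baseChange L).toAffine.negY x y = -y := by
    intro x y
    rw [Affine.negY, a1, a3]
    ring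
  have haddX : ∀ x₁ x₂ ℓ : L, (W.baseChange L).toAffine.addX x₁ x₂ ℓ = ℓ ^ 2 - a - x₁ - x₂ := by
    intro x₁ x₂ ℓ
    rw [Affine.addX, a1, ← haa]
    ring
  have exy := heq hxy
  rcases P with _ | ⟨x₁, y₁, h₁⟩
  · have : mp W t (Affine.Point.zero) = 0 := map_zero (mp W t)
    change Affine.Point.some x y hxy = mp W t (0 : (W.baseChange L).toAffine.Point) - 0 at hR
    rw [map_zero, sub_zero] at hR
    exact Affine.Point.some_ne_zero hxy hR
  · have e1 := heq h₁
    have hm : ∃ h', mp W t (Affine.Point.some x₁ y₁ h₁) = Affine.Point.some (t x₁) (t y₁) h' :=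
      ⟨_, rfl⟩
    obtain ⟨h', hm⟩ := hm
    have e1' := heq h'
    rw [hm] at hR
    rcases le_or_gt 1 (A.valuation x₁) with hA | hB
    · -- case A
      have hne : x ≠ x₁ := by
        rintro rfl
        exact absurd hcon (not_lt.2 hA)
      have hs : Affine.Point.some x y hxy + Affine.Point.some x₁ y₁ h₁ =
          Affine.Point.some (t x₁) (t y₁) h' := by
        rw [hR, sub_add_cancel]
      rw [Affine.Point.add_of_X_ne hne] at hs
      obtain ⟨hx2, -⟩ := (Affine.Point.some.injEq _ _ _ _ _ _).mp hs
      rw [haddX, Affine.slope_of_X_ne hne] at hx2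
      have h5 := nd_add A.valuation va vb vc v2 e1 exy hA hcon
      have h6 : ((y₁ - y) / (x₁ - x)) ^ 2 - a - x₁ - x = t x₁ := by
        rw [← hx2]
        have : (y₁ - y) / (x₁ - x) = (y - y₁) / (x - x₁) := by
          rw [← neg_sub y y₁, ← neg_sub x x₁, neg_div_neg_eq]
        rw [this]
        ring
      rw [h6, hI.val] at h5
      exact absurd h5 (not_lt.2 hA)
    · -- case B
      have hvx : A.valuation (t x₁) = A.valuation x₁ := hI.val x₁
      have hr : A.valuation c < A.valuation x₁ ^ 2 → A.valuation (t y₁ / t x₁ - y₁ / x₁) < 1 := by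
        intro hlt
        have hx0 : x₁ ≠ 0 := by
          rintro rfl
          rw [map_zero, zero_pow two_ne_zero] at hlt
          exact absurd hlt (not_lt.2 zero_le)
        have hvx0 : 0 < A.valuation x₁ := zero_lt_iff.2 ((Valuation.ne_zero_iff _).2 hx0)
        have hsq : (y₁ / x₁) ^ 2 = x₁ + a + b / x₁ + c / x₁ ^ 2 := by
          rw [div_pow, e1]
          field_simp
        have hc2 : A.valuation (c / x₁ ^ 2) ≤ 1 := by
          rw [map_div₀, map_pow, div_le_one₀ (pow_pos hvx0 2)]
          exact hlt.le
        have hb2 : A.valuation (b / x₁) ≤ 1 := by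
          rw [map_div₀, div_le_one₀ hvx0]
          refine vb.trans (hlt.le.trans ?_)
          rw [pow_two]
          exact mul_le_of_le_one_left' hB.le
        have hle : A.valuation ((y₁ / x₁) ^ 2) ≤ 1 := by
          rw [hsq]
          exact Valuation.map_add_le _ (Valuation.map_add_le _ (Valuation.map_add_le _ hB.le va.le)
            hb2) hc2
        have hle1 : A.valuation (y₁ / x₁) ≤ 1 := by
          rw [map_pow] at hle
          by_contra hh
          rw [not_le] at hh
          exact absurd hle (not_le.2 (one_lt_pow₀ hh two_ne_zero))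
        have hmem : y₁ / x₁ ∈ A := (A.valuation_le_one_iff _).1 hle1
        have := hI.mem _ hmem
        rwa [map_div₀] at this
      have hR' : Affine.Point.some x y hxy = Affine.Point.some (t x₁) (t y₁) h' +
          -Affine.Point.some x₁ y₁ h₁ := by
        rw [hR, sub_eq_add_neg]
      have hnsg : ∃ hn, -Affine.Point.some x₁ y₁ h₁ =
          (Affine.Point.some x₁ (-y₁) hn : (W.baseChange L).toAffine.Point) := by
        have hn : (W.baseChange L).toAffine.Nonsingular x₁ (-y₁) := by
          rw [← hneg x₁ y₁]
          exact (Affine.nonsingular_neg x₁ y₁).2 h₁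
        refine ⟨hn, ?_⟩
        rw [Affine.Point.neg_some, Affine.Point.some.injEq]
        exact ⟨rfl, hneg x₁ y₁⟩
      obtain ⟨hn, hng⟩ := hnsg
      rw [hng] at hR'
      by_cases hne : t x₁ = x₁
      · -- equal `x`
        have hyy : (t y₁) ^ 2 = y₁ ^ 2 := by rw [e1', e1, hne]
        rcases sq_eq_sq_iff_eq_or_eq_neg.1 hyy with hy | hy
        · have : Affine.Point.some (t x₁) (t y₁) h' = Affine.Point.some x₁ y₁ h₁ := by
            rw [Affine.Point.some.injEq]
            exact ⟨hne, hy⟩
          rw [this, sub_self] at hR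
          exact Affine.Point.some_ne_zero hxy hR
        · by_cases hy0 : y₁ = 0
          · have : Affine.Point.some (t x₁) (t y₁) h' = Affine.Point.some x₁ y₁ h₁ := by
              rw [Affine.Point.some.injEq]
              exact ⟨hne, by rw [hy, hy0, neg_zero]⟩
            rw [this, sub_self] at hR
            exact Affine.Point.some_ne_zero hxy hR
          · have h2L : (2 : L) ≠ 0 := by
              intro h
              rw [h, map_zero] at v2
              exact zero_ne_one v2
            have hY : t y₁ ≠ (W.baseChange L).toAffine.negY x₁ (-y₁) := by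
              rw [hneg, neg_neg, hy]
              intro h
              apply hy0
              have : (2 : L) * y₁ = 0 := by linear_combination -h
              exact (mul_eq_zero.1 this).resolve_left h2L
            rw [Affine.Point.add_of_Y_ne hY, Affine.Point.some.injEq] at hR'
            obtain ⟨hx2, -⟩ := hR'
            rw [haddX, Affine.slope_of_Y_ne hne hY, hneg, a1, ← haa, ← hbb, hne, hy] at hx2
            have h5 := nd_tangent A.valuation va vb vc v2 e1 hB (fun hlt => by
              have := hr hlt
              rwa [hne, hy] at this) hy0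
            have h6 : ((3 * x₁ ^ 2 + 2 * a * x₁ + b) / (2 * y₁)) ^ 2 - a - 2 * x₁ = x := by
              rw [hx2]
              have h7 : (3 * x₁ ^ 2 + 2 * a * x₁ + b - 0 * -y₁) / (-y₁ - - -y₁) =
                  -((3 * x₁ ^ 2 + 2 * a * x₁ + b) / (2 * y₁)) := by
                rw [← div_neg]
                congr 1
                · ring
                · ring
              rw [h7]
              ring
            rw [h6] at h5
            exact absurd hcon (not_lt.2 h5)
      · rw [Affine.Point.add_of_X_ne hne, Affine.Point.some.injEq] at hR'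
        obtain ⟨hx2, -⟩ := hR'
        rw [haddX, Affine.slope_of_X_ne hne] at hx2
        have h5 := nd_chord A.valuation va vb vc v2 e1 e1' hB hvx hr hne
        have h6 : ((y₁ + t y₁) / (t x₁ - x₁)) ^ 2 - a - x₁ - t x₁ = x := by
          rw [hx2]
          ring
        rw [h6] at h5
        exact absurd hcon (not_lt.2 h5)

end H68SS
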