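import Pool.Agent.H68.SS.Df

/-!
ROW Nt (Newton steps: moving the node; about 120 lines).  PROOF.
`W : y² = f(x) = x³ + a x² + b x + c`, `w a = 1`, `w b, w c < 1`, `w 2 = 1`. The change of variables `⟨1, r, 0, 0⟩` gives `y² = f(x + r)`: `a₂' = a + 3 r`, `a₄' = f'(r) = 3r² + 2 a r + b`, `a₆' = f(r)` (`variableChange_a₂` etc., `simp`).
If `w r < 1` then `w (a + 3r) = 1`, `w (f(r)) < 1`, `w (f'(r)) < 1`. Claim: for every `n` there is `r` with `w r < 1` and `w (f'(r)) ≤ (w b) ^ (2 ^ n)`: `n = 0`: `r = 0`. Step: `r' = r - f'(r)/f''(r)`, `f''(r) = 6 r + 2 a`, `w (f''(r)) = 1`; `f'(r') = 3 (f'(r)/f''(r))²` (exact identity), so `w (f'(r')) ≤ (w f'(r))²`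
(`w 3 ≤ 1`), and `w r' < 1` because `w (f'(r)) < 1`.
Discriminant: `disc = -4a³c + a²b² + 18abc - 4b³ - 27c²`, `W.Δ = 16 disc` (`WeierstrassCurve.Δ`, `b₂ = 4a`, `b₄ = 2b`, `b₆ = 4c`, `b₈ = 4ac - b²`), so `disc ≠ 0`. The discriminant of `f(x + r)` is the same: with `a' = a+3r`, `b' = f'(r)`, `c' = f(r)`: `disc = -4a'³c' + a'²b'² + 18a'b'c' - 4b'³ - 27c'²` (`ring`). So
`w disc ≤ max (w c') (w b')` (all coefficients have `w ≤ 1`). Choose `n` with `(w b)^(2^n) < w disc`: `w b < 1` and `w disc ≠ 0`: if `b = 0` clear; in `ℤᵐ⁰` the powers of an element `< 1` become smaller than any non zero element (`w b ≤ exp (-1)`: `WithZero.log`, or `exists_pow_lt₀`/Archimedean; `n ≤ 2^n`). Then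
`w b' < w disc ≤ max (w c') (w b')`, so `w b' < w c'`.
-/

set_option autoImplicit false
open scoped Classical

open WeierstrassCurve IsDedekindDomain NumberField

namespace H68SS

theorem Nt_step {F : Type} [Field F] {Γ : Type} [LinearOrderedCommGroupWithZero Γ]
    (v : Valuation F Γ) (h2 : v 2 = 1) (h3 : v 3 ≤ 1) (a b : F) (ha : v a = 1)
    (hb : v b < 1) (n : ℕ) :
    ∃ r : F, v r < 1 ∧ v (3 * r ^ 2 + 2 * a * r + b) ≤ (v b) ^ (2 ^ n) := by
  induction n with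
  | zero =>
    refine ⟨0, ?_, ?_⟩
    · rw [map_zero]
      exact zero_lt_one
    · have h : (3 * (0 : F) ^ 2 + 2 * a * 0 + b) = b := by ring
      rw [h, pow_zero, pow_one]
  | succ n ih =>
    obtain ⟨r, hr, hf⟩ := ih
    obtain ⟨g, hg⟩ : ∃ g : F, g = 3 * r ^ 2 + 2 * a * r + b := ⟨_, rfl⟩
    obtain ⟨d, hd⟩ : ∃ d : F, d = 2 * (a + 3 * r) := ⟨_, rfl⟩
    rw [← hg] at hf
    have h3r : v (3 * r) < 1 := by
      rw [map_mul]
      exact mul_lt_one_of_nonneg_of_lt_one_right h3 zero_le hr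
    have hvd : v d = 1 := by
      rw [hd, map_mul, h2, one_mul, add_comm,
        Valuation.map_add_eq_of_lt_right v (by rw [ha]; exact h3r), ha]
    have hd0 : d ≠ 0 := by
      intro h
      rw [h, map_zero] at hvd
      exact zero_ne_one hvd
    have hg1 : v g < 1 := by
      refine lt_of_le_of_lt hf ?_
      exact pow_lt_one₀ zero_le hb (by positivity)
    refine ⟨r - g / d, ?_, ?_⟩
    · refine lt_of_le_of_lt (Valuation.map_sub v _ _) ?_
      rw [max_lt_iff]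
      refine ⟨hr, ?_⟩
      rw [map_div₀, hvd, div_one]
      exact hg1
    · have he : 3 * (r - g / d) ^ 2 + 2 * a * (r - g / d) + b = 3 * (g / d) ^ 2 := by
        have h1 : 3 * (r - g / d) ^ 2 + 2 * a * (r - g / d) + b
            = (3 * r ^ 2 + 2 * a * r + b) - 2 * (a + 3 * r) * (g / d) + 3 * (g / d) ^ 2 := by
          ring
        rw [h1, ← hg, ← hd, mul_div_cancel₀ g hd0]
        ring
      rw [he, map_mul, map_pow, map_div₀, hvd, div_one]
      have h4 : (v b) ^ (2 ^ (n + 1)) = ((v b) ^ (2 ^ n)) ^ 2 := by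
        rw [← pow_mul, pow_succ]
      rw [h4]
      calc v 3 * v g ^ 2 ≤ 1 * v g ^ 2 := mul_le_mul_left h3 _
        _ = v g ^ 2 := one_mul _
        _ ≤ _ := pow_le_pow_left₀ zero_le hf 2

theorem Nt_disc {F : Type} [Field F] {Γ : Type} [LinearOrderedCommGroupWithZero Γ]
    (v : Valuation F Γ) (hn : ∀ n : ℕ, v (n : F) ≤ 1) (a b c r : F) (ha : v a ≤ 1)
    (hb : v b ≤ 1) (hc : v c ≤ 1) (hr : v r ≤ 1) :
    v (-4 * a ^ 3 * c + a ^ 2 * b ^ 2 + 18 * a * b * c - 4 * b ^ 3 - 27 * c ^ 2) ≤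
      max (v (r ^ 3 + a * r ^ 2 + b * r + c)) (v (3 * r ^ 2 + 2 * a * r + b)) := by
  have hnat : ∀ n : ℕ, (n : F) ∈ v.integer := fun n => hn n
  have ha' : a ∈ v.integer := ha
  have hb' : b ∈ v.integer := hb
  have hc' : c ∈ v.integer := hc
  have hr' : r ∈ v.integer := hr
  have h2 : (2 : F) ∈ v.integer := by simpa using hnat 2
  have h3 : (3 : F) ∈ v.integer := by simpa using hnat 3
  have h4 : (4 : F) ∈ v.integer := by simpa using hnat 4
  have h18 : (18 : F) ∈ v.integer := by simpa using hnat 18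
  have h27 : (27 : F) ∈ v.integer := by simpa using hnat 27
  obtain ⟨A, hA⟩ : ∃ A : F, A = a + 3 * r := ⟨_, rfl⟩
  obtain ⟨B, hB⟩ : ∃ B : F, B = 3 * r ^ 2 + 2 * a * r + b := ⟨_, rfl⟩
  obtain ⟨C, hC⟩ : ∃ C : F, C = r ^ 3 + a * r ^ 2 + b * r + c := ⟨_, rfl⟩
  have hAi : A ∈ v.integer := by
    rw [hA]
    exact v.integer.add_mem ha' (v.integer.mul_mem h3 hr')
  have hBi : B ∈ v.integer := by
    rw [hB]
    exact v.integer.add_mem (v.integer.add_mem (v.integer.mul_mem h3 (v.integer.pow_mem hr' 2))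
      (v.integer.mul_mem (v.integer.mul_mem h2 ha') hr')) hb'
  have hCi : C ∈ v.integer := by
    rw [hC]
    exact v.integer.add_mem (v.integer.add_mem (v.integer.add_mem (v.integer.pow_mem hr' 3)
      (v.integer.mul_mem ha' (v.integer.pow_mem hr' 2))) (v.integer.mul_mem hb' hr')) hc'
  have he : -4 * a ^ 3 * c + a ^ 2 * b ^ 2 + 18 * a * b * c - 4 * b ^ 3 - 27 * c ^ 2
      = C * (18 * A * B - 4 * A ^ 3 - 27 * C) + B * (A ^ 2 * B - 4 * B ^ 2) := by
    rw [hA, hB, hC]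
    ring
  have hX : v (18 * A * B - 4 * A ^ 3 - 27 * C) ≤ 1 := by
    have h : 18 * A * B - 4 * A ^ 3 - 27 * C ∈ v.integer :=
      v.integer.sub_mem (v.integer.sub_mem (v.integer.mul_mem (v.integer.mul_mem h18 hAi) hBi)
        (v.integer.mul_mem h4 (v.integer.pow_mem hAi 3))) (v.integer.mul_mem h27 hCi)
    exact h
  have hY : v (A ^ 2 * B - 4 * B ^ 2) ≤ 1 := by
    have h : A ^ 2 * B - 4 * B ^ 2 ∈ v.integer :=
      v.integer.sub_mem (v.integer.mul_mem (v.integer.pow_mem hAi 2) hBi)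
        (v.integer.mul_mem h4 (v.integer.pow_mem hBi 2))
    exact h
  rw [← hC, ← hB, he]
  refine (v.map_add _ _).trans (max_le_max ?_ ?_)
  · rw [map_mul]
    exact mul_le_of_le_one_right' hX
  · rw [map_mul]
    exact mul_le_of_le_one_right' hY

theorem exists_tr {F : Type} [Field F] [NumberField F] {w : HeightOneSpectrum (𝓞 F)}
    {W : WeierstrassCurve F} (hW : NodeEq w W) (hΔ : W.Δ ≠ 0) (h2 : w.valuation F 2 = 1) :
    ∃ C : VariableChange F, C.u = 1 ∧ C.s = 0 ∧ C.t = 0 ∧ w.valuation F C.r < 1 ∧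
      (C • W).a₁ = 0 ∧ (C • W).a₃ = 0 ∧ w.valuation F (C • W).a₂ = 1 ∧
      w.valuation F (C • W).a₄ ≤ w.valuation F (C • W).a₆ ∧ w.valuation F (C • W).a₆ < 1 := by
  obtain ⟨h1, h3, ha, hb, hc⟩ := hW
  have hn : ∀ n : ℕ, w.valuation F (n : F) ≤ 1 := by
    intro n
    have h := w.valuation_le_one (K := F) (n : 𝓞 F)
    have h5 : ((n : 𝓞 F) : F) = (n : F) := by simp
    rw [← h5]
    exact h
  have hv3 : w.valuation F 3 ≤ 1 := by simpa using hn 3
  have hdisc : -4 * W.a₂ ^ 3 * W.a₆ + W.a₂ ^ 2 * W.a₄ ^ 2 + 18 * W.a₂ * W.a₄ * W.a₆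
      - 4 * W.a₄ ^ 3 - 27 * W.a₆ ^ 2 ≠ 0 := by
    intro h
    apply hΔ
    have h4 : W.Δ = 16 * (-4 * W.a₂ ^ 3 * W.a₆ + W.a₂ ^ 2 * W.a₄ ^ 2 + 18 * W.a₂ * W.a₄ * W.a₆
      - 4 * W.a₄ ^ 3 - 27 * W.a₆ ^ 2) := by
      rw [WeierstrassCurve.Δ, WeierstrassCurve.b₈, WeierstrassCurve.b₆, WeierstrassCurve.b₄,
        WeierstrassCurve.b₂, h1, h3]
      ring
    rw [h4, h, mul_zero]
  have hd0 : w.valuation F (-4 * W.a₂ ^ 3 * W.a₆ + W.a₂ ^ 2 * W.a₄ ^ 2
      + 18 * W.a₂ * W.a₄ * W.a₆ - 4 * W.a₄ ^ 3 - 27 * W.a₆ ^ 2) ≠ 0 := by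
    rw [Valuation.ne_zero_iff]
    exact hdisc
  obtain ⟨n, hnn⟩ := exists_pow_lt₀ hb (Units.mk0 _ hd0)
  rw [Units.val_mk0] at hnn
  obtain ⟨r, hr, hg⟩ := Nt_step (w.valuation F) h2 hv3 W.a₂ W.a₄ ha hb n
  have hpow : (w.valuation F W.a₄) ^ (2 ^ n) ≤ (w.valuation F W.a₄) ^ n :=
    pow_le_pow_right_of_le_one' hb.le Nat.lt_two_pow_self.le
  have hglt := lt_of_le_of_lt (hg.trans hpow) hnn
  have hmx := Nt_disc (w.valuation F) hn W.a₂ W.a₄ W.a₆ r ha.le hb.le hc.le hr.le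
  have hr3 : w.valuation F (3 * r) < 1 := by
    rw [map_mul]
    exact mul_lt_one_of_nonneg_of_lt_one_right hv3 zero_le hr
  refine ⟨⟨1, r, 0, 0⟩, rfl, rfl, rfl, hr, ?_, ?_, ?_, ?_, ?_⟩
  · rw [variableChange_a₁, h1]
    simp
  · rw [variableChange_a₃, h1, h3]
    simp
  · have h : ((⟨1, r, 0, 0⟩ : VariableChange F) • W).a₂ = 3 * r + W.a₂ := by
      rw [variableChange_a₂, h1]
      simp
      ring
    rw [h, Valuation.map_add_eq_of_lt_right _ (by rw [ha]; exact hr3), ha]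
  · have h4 : ((⟨1, r, 0, 0⟩ : VariableChange F) • W).a₄ = 3 * r ^ 2 + 2 * W.a₂ * r + W.a₄ := by
      rw [variableChange_a₄, h1, h3]
      simp
      ring
    have h6 : ((⟨1, r, 0, 0⟩ : VariableChange F) • W).a₆
        = r ^ 3 + W.a₂ * r ^ 2 + W.a₄ * r + W.a₆ := by
      rw [variableChange_a₆, h1, h3]
      simp
      ring
    rw [h4, h6]
    by_contra hlt
    rw [not_le] at hlt
    rw [max_eq_right hlt.le] at hmx
    exact absurd hglt (not_lt.2 hmx)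
  · have h6 : ((⟨1, r, 0, 0⟩ : VariableChange F) • W).a₆
        = r ^ 3 + W.a₂ * r ^ 2 + W.a₄ * r + W.a₆ := by
      rw [variableChange_a₆, h1, h3]
      simp
      ring
    rw [h6]
    have e1 : w.valuation F (r ^ 3) < 1 := by
      rw [map_pow]
      exact pow_lt_one₀ zero_le hr (by norm_num)
    have e2 : w.valuation F (W.a₂ * r ^ 2) < 1 := by
      rw [map_mul, ha, one_mul, map_pow]
      exact pow_lt_one₀ zero_le hr (by norm_num)
    have e3 : w.valuation F (W.a₄ * r) < 1 := by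
      rw [map_mul]
      exact mul_lt_one_of_nonneg_of_lt_one_right hb.le zero_le hr
    exact Valuation.map_add_lt _ (Valuation.map_add_lt _ (Valuation.map_add_lt _ e1 e2) e3) hc

end H68SS
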