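import Pool.Agent.H68.SS.Vc
import Pool.Agent.H68.SS.Ndb
import Pool.Agent.H68.SS.Nt
import Pool.Agent.H78.TD.Ua
import Pool.Agent.H78.TD.Uc

/-!
ROW Lx (the local conditions from semistability; about 220 lines; uses only the STATEMENTS of Vc, Ndb, Nt and `H78D.inE1_of_inertia`).  PROOF.
Let `w ∣ l`, `hI : Iner w A t`, `P ∈ W(L)`, `v = A.valuation`. `l` is odd, so `w 2 = 1` (`2` and `l` are coprime and `l ∈ w`: `1 = l - 2 k`).
(0) transport: for `C : VariableChange F`, `W₁ = C • W`, `C_L = C.map (algebraMap F L)`: `C_L • W.baseChange L = W₁.baseChange L` (`WeierstrassCurve.map_variableChange`), `φ` from `exists_vc C_L`. `φ (mp W t P) = mp W₁ t (φ P)` (on `0` and `some x y`, `newX_map`, `newY_map`, `t` fixes the image of `F`: `(C_L).map t = C_L`). So for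
`R = mp W t P - P`: `φ R = mp W₁ t (φ P) - φ P`.
(1) `good_sub`: if `GoodEq w W₁` then for `R = some x y h`: `newX C_L x ∉ A`, i.e. `1 < v (newX C_L x)`: `H78D.inE1_of_inertia` for `W₁` (`W₁` elliptic since `W₁.Δ ≠ 0`; `Integral A (W₁.baseChange L)` and `v (W₁.baseChange L).Δ = 1` from `hI.under`: `w z ≤ 1 ↔ algebraMap z ∈ A`, so `w z = 1 → v z = 1`).
(2) `node_sub'`: if `NodeEq w W₁` then for `R = some x y h`: `1 ≤ v (newX C_L x)`. `exists_tr` gives `C'` with `w C'.r < 1`, `C'.u = 1` and `W₂ = C' • W₁` as in `node_sub`. Transport to `W₂` in two steps: the `x`-coordinate of the image is `newX C'_L (newX C_L x) = newX C_L x - C'.r`, its valuation is `≥ 1` by `node_sub`, and `v (C'.r) < 1`, so `1 ≤ v (newX C_L x)`.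
(3) `locOdd_of_ss`: `T = some x₀ y₀ h₀`, suppose `k • T_L = t P - P` and `l ∤ k`. `m k ≡ 1 mod l`: `T_L = m • k • T_L = t (m P) - m P` (`l • T_L = 0`; `map_nsmul`, `smul_sub`), `T_L = some (algebraMap x₀) (algebraMap y₀) _`. In the good case (1) gives `1 < v (newX C_L x₀)`, but `w (newX C x₀) ≤ 1` (`newX_map`): contradiction. Node: (2) gives
`1 ≤ v (newX C_L x₀)` but `w (newX C x₀) < 1`: contradiction.
(4) `locEven_of_ss`: `S = 0`: `k = 0`. `S = some x y h` over `M`, `mp W j S = some (j x) (j y) _ = t P - P`. The valuation ring `V = A.comap j` of `M`, the prime `q` of `M` below (`H78D.not_mem_val` in `Pool/Agent/H78/TE/Ub.lean` and its proof: `x ∉ V → 1 < q x`; here also: `x` not in the maximal ideal of `V` → `1 ≤ q x`, i.e. `q x < 1 → v (j x) < 1`: write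
`x = n / d` with `d ∉ q`, `n ∈ q` (`exists_primeCompl_mul_eq_of_integer`, `valuation_lt_one_iff_mem`)), and `algebraMap z ∈ q ↔ z ∈ w` for `z : 𝓞 F` (`Uc_under`). In the good case (1) gives `1 < v (newX C_L (j x))`, i.e. `newX C_M x ∉ V`, so `1 < q (newX C_M x)`; in the node case `1 ≤ v (newX C_L (j x))` gives `1 ≤ q (newX C_M x)`. The hypothesis gives
the claim (decidable equality instances as in `kerR_use`).
-/

set_option autoImplicit false
open scoped Classical

open WeierstrassCurve IsDedekindDomain NumberField Pool.Agent.H10 Pool.Agent.H11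

namespace H68SS

theorem Lx_le {F L : Type} [Field F] [NumberField F] [Field L] [Algebra F L]
    {w : HeightOneSpectrum (𝓞 F)} {A : ValuationSubring L} {t : L →ₐ[F] L} (hI : Iner w A t)
    {z : F} (h : w.valuation F z ≤ 1) : A.valuation (algebraMap F L z) ≤ 1 :=
  (A.valuation_le_one_iff _).2 ((hI.under z).2 h)

theorem Lx_lt {F L : Type} [Field F] [NumberField F] [Field L] [Algebra F L]
    {w : HeightOneSpectrum (𝓞 F)} {A : ValuationSubring L} {t : L →ₐ[F] L} (hI : Iner w A t)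
    {z : F} (h : w.valuation F z < 1) : A.valuation (algebraMap F L z) < 1 := by
  by_cases hz : z = 0
  · rw [hz, map_zero, map_zero]
    exact zero_lt_one
  · have h1 : algebraMap F L z ≠ 0 := (map_ne_zero _).2 hz
    rw [H78D.Uc_lt _ h1, A.valuation_le_one_iff, ← map_inv₀, hI.under, ← H78D.Uc_lt _ hz]
    exact h

theorem Lx_one {F L : Type} [Field F] [NumberField F] [Field L] [Algebra F L]
    {w : HeightOneSpectrum (𝓞 F)} {A : ValuationSubring L} {t : L →ₐ[F] L} (hI : Iner w A t)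
    {z : F} (h : w.valuation F z = 1) : A.valuation (algebraMap F L z) = 1 := by
  have hz : z ≠ 0 := by
    rintro rfl
    rw [map_zero] at h
    exact zero_ne_one h
  have h1 : algebraMap F L z ≠ 0 := (map_ne_zero _).2 hz
  refine le_antisymm (Lx_le hI h.le) ?_
  by_contra hc
  rw [not_le, H78D.Uc_lt _ h1, A.valuation_le_one_iff, ← map_inv₀, hI.under, map_inv₀, h, inv_one] at hc
  exact hc le_rfl

theorem Lx_cmap {F M L : Type} [Field F] [Field M] [Field L] [Algebra F M] [Algebra F L]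
    (j : M →ₐ[F] L) (C : VariableChange F) :
    (C.map (algebraMap F M)).map (j : M →+* L) = C.map (algebraMap F L) := by
  have e : (j : M →+* L).comp (algebraMap F M) = algebraMap F L := j.comp_algebraMap
  rw [VariableChange.map_map, e]

theorem Lx_newX {F M L : Type} [Field F] [Field M] [Field L] [Algebra F M] [Algebra F L]
    (j : M →ₐ[F] L) (C : VariableChange F) (x : M) :
    j (newX (C.map (algebraMap F M)) x) = newX (C.map (algebraMap F L)) (j x) := by
  rw [← Lx_cmap j C]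
  exact newX_map (j : M →+* L) _ x

theorem Lx_newY {F M L : Type} [Field F] [Field M] [Field L] [Algebra F M] [Algebra F L]
    (j : M →ₐ[F] L) (C : VariableChange F) (x y : M) :
    j (newY (C.map (algebraMap F M)) x y) = newY (C.map (algebraMap F L)) (j x) (j y) := by
  rw [← Lx_cmap j C]
  exact newY_map (j : M →+* L) _ x y

theorem Lx_tr {F L : Type} [Field F] [Field L] [Algebra F L] (W W₁ : WeierstrassCurve F)
    (C : VariableChange F) (hC : C • W = W₁) (t : L →ₐ[F] L) :
    ∃ φ : (W.baseChange L).toAffine.Point →+ (W₁.baseChange L).toAffine.Point,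
      (∀ (x y : L) (h : (W.baseChange L).toAffine.Nonsingular x y),
        ∃ h', φ (Affine.Point.some x y h) = Affine.Point.some (newX (C.map (algebraMap F L)) x)
          (newY (C.map (algebraMap F L)) x y) h') ∧
      ∀ P, φ (mp W t P) = mp W₁ t (φ P) := by
  have hCL : C.map (algebraMap F L) • W.baseChange L = W₁.baseChange L := by
    rw [← hC]
    exact WeierstrassCurve.map_variableChange ..
  obtain ⟨φ, -, hφ⟩ := exists_vc (C.map (algebraMap F L)) hCL
  refine ⟨φ, hφ, ?_⟩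
  intro P
  match P with
  | 0 => rw [map_zero, map_zero, map_zero]
  | .some x y h =>
    obtain ⟨h1, e1⟩ := hφ x y h
    have e2 : mp W t (.some x y h) = .some (t x) (t y) _ :=
      WeierstrassCurve.Affine.Point.map_some t h
    obtain ⟨h3, e3⟩ := hφ (t x) (t y) ((W.toAffine.baseChange_nonsingular t.injective ..).mpr h)
    rw [e2, e3, e1]
    have e4 : mp W₁ t (.some _ _ h1) = .some (t (newX (C.map (algebraMap F L)) x))
      (t (newY (C.map (algebraMap F L)) x y)) _ := WeierstrassCurve.Affine.Point.map_some t h1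
    rw [e4, Affine.Point.some.injEq]
    exact ⟨(Lx_newX t C x).symm, (Lx_newY t C x y).symm⟩

theorem Lx_good {F L : Type} [Field F] [NumberField F] [Field L] [Algebra F L]
    {w : HeightOneSpectrum (𝓞 F)} {A : ValuationSubring L} {t : L →ₐ[F] L} (hI : Iner w A t)
    (W : WeierstrassCurve F) (C : VariableChange F) (hg : GoodEq w (C • W))
    (P : (W.baseChange L).toAffine.Point) {x y : L}
    (hxy : (W.baseChange L).toAffine.Nonsingular x y)
    (hR : Affine.Point.some x y hxy = mp W t P - P) :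
    1 < A.valuation (newX (C.map (algebraMap F L)) x) := by
  obtain ⟨W₁, hW₁⟩ : ∃ W₁ : WeierstrassCurve F, C • W = W₁ := ⟨_, rfl⟩
  rw [hW₁] at hg
  obtain ⟨φ, hφ, hφt⟩ := Lx_tr W W₁ C hW₁ t
  obtain ⟨g1, g2, g3, g4, g6, gΔ⟩ := hg
  have hell : W₁.IsElliptic := by
    refine ⟨isUnit_iff_ne_zero.2 ?_⟩
    intro h0
    rw [h0, map_zero] at gΔ
    exact zero_ne_one gΔ
  have hInt : Integral A (W₁.baseChange L) :=
    ⟨(hI.under _).2 g1, (hI.under _).2 g2, (hI.under _).2 g3, (hI.under _).2 g4, (hI.under _).2 g6⟩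
  have hΔ : A.valuation (W₁.baseChange L).Δ = 1 := by
    have e : (W₁.baseChange L).Δ = algebraMap F L W₁.Δ := WeierstrassCurve.map_Δ W₁ (algebraMap F L)
    rw [e]
    exact Lx_one hI gΔ
  have h1 := H78D.inE1_of_inertia W₁ hInt hΔ t hI.mem hI.nmem (φ P)
  obtain ⟨h', e'⟩ := hφ x y hxy
  have h2 : (WeierstrassCurve.Affine.Point.map t :
      (W₁.baseChange L).toAffine.Point →+ (W₁.baseChange L).toAffine.Point) (φ P) - φ P =
      Affine.Point.some _ _ h' := by
    rw [← e', hR, map_sub, hφt]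
  rw [h2] at h1
  rcases h1 with h1 | ⟨x', y', h'', h1, hx'⟩
  · exact absurd h1 (WeierstrassCurve.Affine.Point.some_ne_zero _)
  · rw [WeierstrassCurve.Affine.Point.some.injEq] at h1
    rw [← h1.1, ← A.valuation_le_one_iff, not_le] at hx'
    exact hx'

theorem Lx_node {F L : Type} [Field F] [NumberField F] [Field L] [Algebra F L]
    {w : HeightOneSpectrum (𝓞 F)} {A : ValuationSubring L} {t : L →ₐ[F] L} (hI : Iner w A t)
    (W : WeierstrassCurve F) (C : VariableChange F) (hg : NodeEq w (C • W)) (hE : W.Δ ≠ 0)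
    (h2 : w.valuation F 2 = 1) (P : (W.baseChange L).toAffine.Point) {x y : L}
    (hxy : (W.baseChange L).toAffine.Nonsingular x y)
    (hR : Affine.Point.some x y hxy = mp W t P - P) :
    1 ≤ A.valuation (newX (C.map (algebraMap F L)) x) := by
  have hΔ₁ : (C • W).Δ ≠ 0 := by
    rw [variableChange_Δ]
    exact mul_ne_zero (pow_ne_zero _ (Units.ne_zero _)) hE
  obtain ⟨W₁, hW₁⟩ : ∃ W₁ : WeierstrassCurve F, C • W = W₁ := ⟨_, rfl⟩
  rw [hW₁] at hg hΔ₁
  obtain ⟨C', hu, -, -, hr, k1, k3, ka, kb, kc⟩ := exists_tr hg hΔ₁ h2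
  obtain ⟨W₂, hW₂⟩ : ∃ W₂ : WeierstrassCurve F, C' • W₁ = W₂ := ⟨_, rfl⟩
  rw [hW₂] at k1 k3 ka kb kc
  obtain ⟨φ, hφ, hφt⟩ := Lx_tr W W₁ C hW₁ t
  obtain ⟨ψ, hψ, hψt⟩ := Lx_tr W₁ W₂ C' hW₂ t
  obtain ⟨h', e'⟩ := hφ x y hxy
  obtain ⟨h'', e''⟩ := hψ _ _ h'
  have h3 : Affine.Point.some _ _ h'' = mp W₂ t (ψ (φ P)) - ψ (φ P) := by
    rw [← e'', ← e', hR, map_sub, map_sub, hφt, hψt]
  have h4 := node_sub hI W₂ k1 k3 ka kb kc h2 (ψ (φ P)) h'' h3
  have e5 : newX (C'.map (algebraMap F L)) (newX (C.map (algebraMap F L)) x) =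
      newX (C.map (algebraMap F L)) x - algebraMap F L C'.r := by
    simp [newX, VariableChange.map, hu]
  rw [e5] at h4
  by_contra hc
  rw [not_le] at hc
  exact absurd (A.valuation.map_sub_lt hc (Lx_lt hI hr)) (not_lt.2 h4)

theorem Lx_two {F : Type} [Field F] [NumberField F] {l : ℕ} (hl : l.Prime) (hl2 : l ≠ 2)
    (w : HeightOneSpectrum (𝓞 F)) (hw : (l : 𝓞 F) ∈ w.asIdeal) : w.valuation F 2 = 1 := by
  have e : (2 : F) = algebraMap (𝓞 F) F 2 := (map_ofNat (algebraMap (𝓞 F) F) 2).symm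
  rw [e, HeightOneSpectrum.valuation_eq_one_iff_notMem]
  intro h2
  obtain ⟨k, hk⟩ := hl.odd_of_ne_two hl2
  have h1 : (1 : 𝓞 F) ∈ w.asIdeal := by
    have e1 : (1 : 𝓞 F) = (l : 𝓞 F) - 2 * (k : 𝓞 F) := by
      rw [hk]
      push_cast
      ring
    rw [e1]
    exact sub_mem hw (Ideal.mul_mem_right _ _ h2)
  exact w.isPrime.ne_top ((Ideal.eq_top_iff_one _).2 h1)

theorem Lx_q {F M : Type} [Field F] [NumberField F] [Field M] [NumberField M] [Algebra F M]
    (w : HeightOneSpectrum (𝓞 F)) (V : ValuationSubring M)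
    (hV : ∀ x : F, algebraMap F M x ∈ V ↔ w.valuation F x ≤ 1) :
    ∃ q : HeightOneSpectrum (𝓞 M), (∀ x : 𝓞 F, algebraMap (𝓞 F) (𝓞 M) x ∈ q.asIdeal ↔ x ∈ w.asIdeal) ∧
      (∀ x : M, x ∉ V → 1 < q.valuation M x) ∧ ∀ x : M, q.valuation M x < 1 → V.valuation x < 1 := by
  have hprime : (H78D.Uc_q V).IsPrime := by
    unfold H78D.Uc_q
    exact Ideal.comap_isPrime _ _
  have hne : H78D.Uc_q V ≠ ⊥ := by
    intro h0
    apply w.ne_bot
    rw [eq_bot_iff]
    intro x hx
    have h1 : algebraMap (𝓞 F) (𝓞 M) x ∈ H78D.Uc_q V := (H78D.Uc_under w V hV x).2 hx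
    rw [h0, Ideal.mem_bot] at h1
    rw [Ideal.mem_bot]
    exact (map_eq_zero_iff _ (FaithfulSMul.algebraMap_injective (𝓞 F) (𝓞 M))).1 h1
  refine ⟨⟨H78D.Uc_q V, hprime, hne⟩, fun x => H78D.Uc_under w V hV x, ?_, ?_⟩
  · intro x hx
    by_contra hc
    rw [not_lt] at hc
    obtain ⟨n, d, hnd⟩ := (⟨H78D.Uc_q V, hprime, hne⟩ : HeightOneSpectrum (𝓞 M)).exists_primeCompl_mul_eq_of_integer x hc
    have h2 : V.valuation (algebraMap (𝓞 M) M d) = 1 := H78D.Uc_notmem V d d.2
    have h3 : V.valuation (algebraMap (𝓞 M) M n) ≤ 1 := (V.valuation_le_one_iff _).2 (H78D.Uc_int V n)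
    rw [← hnd, map_mul, h2, mul_one] at h3
    exact hx ((V.valuation_le_one_iff _).1 h3)
  · intro x hx
    exact H78D.Uc_val V ⟨H78D.Uc_q V, hprime, hne⟩ rfl x hx

theorem Lx_comap {M L : Type} [Field M] [Field L] (A : ValuationSubring L) (j : M →+* L) {x : M}
    (h : (A.comap j).valuation x < 1) : A.valuation (j x) < 1 := by
  by_cases hx : x = 0
  · rw [hx, map_zero, map_zero]
    exact zero_lt_one
  · have h1 : j x ≠ 0 := (map_ne_zero _).2 hx
    rw [H78D.Uc_lt _ hx, ValuationSubring.valuation_le_one_iff, ValuationSubring.mem_comap, map_inv₀] at h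
    rw [H78D.Uc_lt _ h1, ValuationSubring.valuation_le_one_iff]
    exact h

theorem locOdd_of_ss {F : Type} [Field F] [NumberField F] {l : ℕ} (hl : l.Prime) (hl2 : l ≠ 2)
    {W : WeierstrassCurve F} (hE : W.Δ ≠ 0) {T : W.toAffine.Point} (hT : l • T = 0)
    (H : SsOdd l W T) : LocOdd l W T := by
  obtain ⟨x₀, y₀, h₀, rfl, H⟩ := H
  intro w hw L _ _ A t hI P k hk
  obtain ⟨C, hC⟩ := H w hw
  by_contra hlk
  obtain ⟨m, -, hm⟩ := Nat.exists_mul_mod_eq_one_of_coprime (((Nat.Prime.coprime_iff_not_dvd hl).2 hlk).symm) hl.one_lt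
  obtain ⟨TL, hTL⟩ : ∃ TL : (W.baseChange L).toAffine.Point,
      TL = pm (algebraMap F L) rfl (Affine.Point.some x₀ y₀ h₀) := ⟨_, rfl⟩
  have hlT : l • TL = 0 := by
    rw [hTL]
    exact (map_nsmul (pm (algebraMap F L) rfl) l _).symm.trans ((congrArg _ hT).trans (map_zero _))
  have hk' : k • TL = mp W t P - P := by
    rw [hTL]
    exact hk
  have h1 : m • (k • TL) = TL := by
    rw [← mul_smul, mul_comm m k, ← Nat.div_add_mod (k * m) l, hm, add_smul, one_smul, mul_comm l, mul_smul,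
      hlT, smul_zero, zero_add]
  rw [hk', smul_sub, ← map_nsmul] at h1
  have h2 : TL = Affine.Point.some (algebraMap F L x₀) (algebraMap F L y₀)
      ((Affine.map_nonsingular W (algebraMap F L).injective x₀ y₀).mpr h₀) := by
    rw [hTL]
    rfl
  rw [h2] at h1
  have e : newX (C.map (algebraMap F L)) (algebraMap F L x₀) = algebraMap F L (newX C x₀) :=
    (newX_map (algebraMap F L) C x₀).symm
  rcases hC with ⟨hg, hx⟩ | ⟨hg, hx⟩
  · have h3 := Lx_good hI W C hg (m • P) _ h1.symm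
    rw [e] at h3
    exact absurd (Lx_le hI hx) (not_le.2 h3)
  · have h3 := Lx_node hI W C hg hE (Lx_two hl hl2 w hw) (m • P) _ h1.symm
    rw [e] at h3
    exact absurd (Lx_lt hI hx) (not_lt.2 h3)

theorem locEven_of_ss {F : Type} [Field F] [NumberField F] {l : ℕ} (hl : l.Prime) (hl2 : l ≠ 2)
    {W : WeierstrassCurve F} (hE : W.Δ ≠ 0) {T : W.toAffine.Point}
    (H : SsEven l W T) : LocEven l W T := by
  intro w hw M _ _ _ S hS L _ _ A t hI j P hP
  obtain ⟨C, hC, H⟩ := H w hw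
  match S, hS, hP with
  | 0, _, _ => exact ⟨0, (zero_smul _ _).symm⟩
  | .some x y h, hS, hP =>
    have hV : ∀ x : F, algebraMap F M x ∈ A.comap (j : M →+* L) ↔ w.valuation F x ≤ 1 := by
      intro x
      rw [ValuationSubring.mem_comap, ← hI.under]
      have e : (j : M →+* L) (algebraMap F M x) = algebraMap F L x := j.commutes x
      rw [e]
    obtain ⟨q, hq1, hq2, hq3⟩ := Lx_q w (A.comap (j : M →+* L)) hV
    have e1 : mp W j (.some x y h) = .some (j x) (j y) _ :=
      WeierstrassCurve.Affine.Point.map_some j h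
    rw [e1] at hP
    have e2 : newX (C.map (algebraMap F L)) (j x) = j (newX (C.map (algebraMap F M)) x) :=
      (Lx_newX j C x).symm
    refine H M q hq1 x y h hS ?_
    rcases hC with hg | hg
    · left
      refine ⟨hg, hq2 _ ?_⟩
      have h3 := Lx_good hI W C hg P _ hP
      rw [e2] at h3
      intro h4
      rw [ValuationSubring.mem_comap] at h4
      exact absurd ((A.valuation_le_one_iff _).2 h4) (not_le.2 h3)
    · right
      refine ⟨hg, ?_⟩
      have h3 := Lx_node hI W C hg hE (Lx_two hl hl2 w hw) P _ hP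
      rw [e2] at h3
      by_contra hc
      rw [not_le] at hc
      exact absurd (Lx_comap A (j : M →+* L) (hq3 _ hc)) (not_lt.2 h3)

end H68SS
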