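import Pool.Agent.H68.SS.Vc
import Pool.Agent.H68.TM.Up2

/-!
ROW Up3 (the conditions above `l` in extensions; about 130 lines; uses only the STATEMENTS of Vc and of `val_up` in TM/Up).  PROOF.
`ν : N →+* F`, `w` a prime of `F`; a version of `H68TM.val_up` (same proof as in `Pool/Agent/H68/TM/Up.lean`) which also gives `∀ x : 𝓞 N, (RingOfIntegers.mapRingHom ν x ∈ w.asIdeal ↔ x ∈ v.asIdeal)` and `v x < 1 → w (ν x) < 1`: with `Algebra N F := ν.toAlgebra`, `v.asIdeal = w.asIdeal.under (𝓞 N)` and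
`HeightOneSpectrum.valuation_liesOver (K := N) F v w : v.valuation N x ^ e = w.valuation F (algebraMap N F x)`, `e ≠ 0`.
(1) `ssOdd_up`: `subst hh`. For `w` above `l` take `C` for `v` and use `C.map ν`: `(C.map ν) • (W.map ν) = (C • W).map ν` (`WeierstrassCurve.map_variableChange`), the coefficients are images (`map_a₁`, .., `map_Δ`), `newX_map`. `pm ν rfl (some x y h) = some (ν x) (ν y) _` (`pm_some`).
(2) `ssEven_up`: in the same way; a number field `M` over `F` is a number field over `N` (`((algebraMap F M).comp ν).toAlgebra`), a prime `q` of `M` above `w` is above `v`; the curves `W.map (algebraMap N M)` and `(W.map ν).map (algebraMap F M)` are equal (`map_map`), see `kerR_up` in `Pool/Agent/H68/TM/Up2.lean` (copy its two private lemmas);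
`(C.map ν).map (algebraMap F M) = C.map (algebraMap N M)` (`VariableChange.map_map`).
-/

set_option autoImplicit false
open scoped Classical

open WeierstrassCurve IsDedekindDomain NumberField Pool.Agent.H10 Pool.Agent.H11

namespace H68SS

theorem Up3_val {N F : Type} [Field N] [NumberField N] [Field F] [NumberField F] (ν : N →+* F)
    (w : HeightOneSpectrum (𝓞 F)) : ∃ v : HeightOneSpectrum (𝓞 N),
    (∀ n : ℤ, (n : 𝓞 N) ∈ v.asIdeal ↔ (n : 𝓞 F) ∈ w.asIdeal) ∧
    (∀ x : 𝓞 N, RingOfIntegers.mapRingHom ν x ∈ w.asIdeal ↔ x ∈ v.asIdeal) ∧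
    (∀ x : N, v.valuation N x ≤ 1 → w.valuation F (ν x) ≤ 1) ∧
    (∀ x : N, v.valuation N x = 1 → w.valuation F (ν x) = 1) ∧
    ∀ x : N, v.valuation N x < 1 → w.valuation F (ν x) < 1 := by
  let _ : Algebra N F := ν.toAlgebra
  have hne : w.asIdeal.under (𝓞 N) ≠ ⊥ := Ideal.IsIntegral.comap_ne_bot _ w.ne_bot
  have hp : (w.asIdeal.under (𝓞 N)).IsPrime := Ideal.IsPrime.under _ _
  let v : HeightOneSpectrum (𝓞 N) := ⟨w.asIdeal.under (𝓞 N), hp, hne⟩
  have _ : w.asIdeal.LiesOver v.asIdeal := ⟨rfl⟩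
  have key := HeightOneSpectrum.valuation_liesOver (K := N) F v w
  refine ⟨v, fun n => ?_, fun x => ?_, fun x hx => ?_, fun x hx => ?_, fun x hx => ?_⟩
  · change algebraMap (𝓞 N) (𝓞 F) (n : 𝓞 N) ∈ w.asIdeal ↔ _
    rw [map_intCast]
  · exact Iff.rfl
  · change w.valuation F (algebraMap N F x) ≤ 1
    rw [← key]
    exact pow_le_one' hx _
  · change w.valuation F (algebraMap N F x) = 1
    rw [← key, hx, one_pow]
  · change w.valuation F (algebraMap N F x) < 1
    rw [← key]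
    refine pow_lt_one' hx ?_
    exact Ideal.IsDedekindDomain.ramificationIdx'_ne_zero_of_liesOver _ v.ne_bot

theorem Up3_good {N F : Type} [Field N] [NumberField N] [Field F] [NumberField F] (ν : N →+* F)
    {v : HeightOneSpectrum (𝓞 N)} {w : HeightOneSpectrum (𝓞 F)}
    (h1 : ∀ x : N, v.valuation N x ≤ 1 → w.valuation F (ν x) ≤ 1)
    (h2 : ∀ x : N, v.valuation N x = 1 → w.valuation F (ν x) = 1)
    (W : WeierstrassCurve N) (C : VariableChange N) (H : GoodEq v (C • W)) :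
    GoodEq w ((C.map ν) • (W.map ν)) := by
  obtain ⟨a1, a2, a3, a4, a6, aΔ⟩ := H
  rw [WeierstrassCurve.map_variableChange]
  refine ⟨h1 _ a1, h1 _ a2, h1 _ a3, h1 _ a4, h1 _ a6, ?_⟩
  rw [WeierstrassCurve.map_Δ]
  exact h2 _ aΔ

theorem Up3_node {N F : Type} [Field N] [NumberField N] [Field F] [NumberField F] (ν : N →+* F)
    {v : HeightOneSpectrum (𝓞 N)} {w : HeightOneSpectrum (𝓞 F)}
    (h2 : ∀ x : N, v.valuation N x = 1 → w.valuation F (ν x) = 1)
    (h3 : ∀ x : N, v.valuation N x < 1 → w.valuation F (ν x) < 1)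
    (W : WeierstrassCurve N) (C : VariableChange N) (H : NodeEq v (C • W)) :
    NodeEq w ((C.map ν) • (W.map ν)) := by
  obtain ⟨a1, a3, a2, a4, a6⟩ := H
  rw [WeierstrassCurve.map_variableChange]
  refine ⟨?_, ?_, h2 _ a2, h3 _ a4, h3 _ a6⟩
  · rw [WeierstrassCurve.map_a₁, a1, map_zero]
  · rw [WeierstrassCurve.map_a₃, a3, map_zero]

theorem Up3_disc {F : Type} [Field F] [NumberField F] (w : HeightOneSpectrum (𝓞 F))
    (W : WeierstrassCurve F) (H : NodeEq w W) : w.valuation F W.Δ < 1 := by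
  obtain ⟨a1, a3, a2, a4, a6⟩ := H
  have hint : ∀ n : ℤ, w.valuation F (n : F) ≤ 1 := fun n => by
    have h := w.valuation_le_one (K := F) (n : 𝓞 F)
    have e : algebraMap (𝓞 F) F (n : 𝓞 F) = (n : F) := map_intCast (algebraMap (𝓞 F) F) n
    calc w.valuation F (n : F) = w.valuation F (algebraMap (𝓞 F) F (n : 𝓞 F)) := by rw [e]
      _ ≤ 1 := h
  have hmul : ∀ (n : ℤ) (x y : F), w.valuation F x ≤ 1 → w.valuation F y < 1 →
      w.valuation F ((n : F) * x * y) < 1 := by
    intro n x y hx hy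
    rw [map_mul, map_mul]
    exact lt_of_le_of_lt (mul_le_of_le_one_left' (mul_le_one' (hint n) hx)) hy
  have hΔ : W.Δ = ((16 : ℤ) : F) * (W.a₂ ^ 2 * W.a₄) * W.a₄ + ((-64 : ℤ) : F) * W.a₂ ^ 3 * W.a₆ +
      ((-64 : ℤ) : F) * W.a₄ ^ 2 * W.a₄ + ((-432 : ℤ) : F) * W.a₆ * W.a₆ +
      ((288 : ℤ) : F) * (W.a₂ * W.a₄) * W.a₆ := by
    rw [WeierstrassCurve.Δ, WeierstrassCurve.b₂, WeierstrassCurve.b₄, WeierstrassCurve.b₆,
      WeierstrassCurve.b₈, a1, a3]
    push_cast
    ring
  rw [hΔ]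
  refine Valuation.map_add_lt _ (Valuation.map_add_lt _ (Valuation.map_add_lt _
    (Valuation.map_add_lt _ ?_ ?_) ?_) ?_) ?_
  · apply hmul _ _ _ _ a4
    rw [map_mul, map_pow, a2, one_pow, one_mul]
    exact a4.le
  · apply hmul _ _ _ _ a6
    rw [map_pow, a2, one_pow]
  · apply hmul _ _ _ _ a4
    rw [map_pow]
    exact pow_le_one' a4.le _
  · exact hmul _ _ _ a6.le a6
  · apply hmul _ _ _ _ a6
    rw [map_mul, a2, one_mul]
    exact a4.le

theorem ssOdd_up {N F : Type} [Field N] [NumberField N] [Field F] [NumberField F] (ν : N →+* F)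
    {l : ℕ} {W : WeierstrassCurve N} {W' : WeierstrassCurve F} (hh : W.map ν = W')
    {T : W.toAffine.Point} (H : SsOdd l W T) : SsOdd l W' (pm ν hh T) := by
  subst hh
  obtain ⟨x, y, h, rfl, H⟩ := H
  refine ⟨ν x, ν y, _, pm_some _ _ _, ?_⟩
  intro w hw
  obtain ⟨v, hv, -, h1, h2, h3⟩ := Up3_val ν w
  have hlv : (l : 𝓞 N) ∈ v.asIdeal := by
    have := (hv (l : ℤ)).2 (by simpa using hw)
    simpa using this
  obtain ⟨C, ⟨hg, hx⟩ | ⟨hn, hx⟩⟩ := H v hlv
  · refine ⟨C.map ν, Or.inl ⟨Up3_good ν h1 h2 W C hg, ?_⟩⟩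
    rw [← newX_map]
    exact h1 _ hx
  · refine ⟨C.map ν, Or.inr ⟨Up3_node ν h2 h3 W C hn, ?_⟩⟩
    rw [← newX_map]
    exact h3 _ hx

private theorem Up3_smul {F : Type} [Field F] {W1 W2 : WeierstrassCurve F} (e : W1 = W2) {l : ℕ}
    {x y : F} (h1 : W1.toAffine.Nonsingular x y) (h2 : W2.toAffine.Nonsingular x y)
    (h : l • Affine.Point.some x y h1 = 0) : l • Affine.Point.some x y h2 = 0 := by
  subst e
  exact h

private theorem Up3_eq {N F : Type} [Field N] [Field F] {W : WeierstrassCurve N}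
    {W1 W2 : WeierstrassCurve F} (e : W1 = W2) {j : ℕ} {T : W.toAffine.Point} {φ : N →+* F}
    (hφ : W.map φ = W1) {x y : F} (h1 : W1.toAffine.Nonsingular x y)
    (h2 : W2.toAffine.Nonsingular x y) (h : Affine.Point.some x y h1 = j • pm φ hφ T) :
    Affine.Point.some x y h2 = j • pm φ (hφ.trans e) T := by
  subst e
  exact h

theorem ssEven_up {N F : Type} [Field N] [NumberField N] [Field F] [NumberField F] (ν : N →+* F)
    {l : ℕ} {W : WeierstrassCurve N} {W' : WeierstrassCurve F} (hh : W.map ν = W')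
    {T : W.toAffine.Point} (H : SsEven l W T) : SsEven l W' (pm ν hh T) := by
  intro w hw
  obtain ⟨v, hv, hvw, h1, h2, h3⟩ := Up3_val ν w
  have hlv : (l : 𝓞 N) ∈ v.asIdeal := by
    have := (hv (l : ℤ)).2 (by simpa using hw)
    simpa using this
  obtain ⟨C, hC, H⟩ := H v hlv
  refine ⟨C.map ν, ?_, ?_⟩
  · subst hh
    rcases hC with hC | hC
    · exact Or.inl (Up3_good ν h1 h2 W C hC)
    · exact Or.inr (Up3_node ν h2 h3 W C hC)
  · intro M _ _ _ q hq x y h hl hx
    let _ : Algebra N M := ((algebraMap F M).comp ν).toAlgebra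
    have e : W.map (algebraMap N M) = W'.map (algebraMap F M) := by
      rw [← hh, WeierstrassCurve.map_map]
      rfl
    have h' : (W.map (algebraMap N M)).toAffine.Nonsingular x y := by
      rw [e]
      exact h
    have hqv : ∀ x : 𝓞 N, algebraMap (𝓞 N) (𝓞 M) x ∈ q.asIdeal ↔ x ∈ v.asIdeal := by
      intro z
      rw [← hvw z, ← hq]
      exact Iff.rfl
    have hCm : (C.map ν).map (algebraMap F M) = C.map (algebraMap N M) := by
      rw [VariableChange.map_map]
      rfl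
    rw [hCm] at hx
    have hx' : GoodEq v (C • W) ∧ 1 < q.valuation M (newX (C.map (algebraMap N M)) x) ∨
        NodeEq v (C • W) ∧ 1 ≤ q.valuation M (newX (C.map (algebraMap N M)) x) := by
      rcases hC with hC | hC
      · refine Or.inl ⟨hC, ?_⟩
        rcases hx with ⟨-, hx⟩ | ⟨hn, hx⟩
        · exact hx
        · exfalso
          subst hh
          have hg := Up3_good ν h1 h2 W C hC
          exact absurd hg.2.2.2.2.2 (Up3_disc w _ hn).ne
      · refine Or.inr ⟨hC, ?_⟩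
        rcases hx with ⟨-, hx⟩ | ⟨-, hx⟩
        · exact hx.le
        · exact hx
    obtain ⟨j, hj⟩ := H M q hqv x y h' (Up3_smul e.symm h h' hl) hx'
    refine ⟨j, ?_⟩
    rw [Up3_eq e rfl h' h hj, pm_pm ν hh (algebraMap F M) rfl]
    rfl

end H68SS
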