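import Pool.Agent.H68.TM.Both
import Pool.Agent.H68.SS.Lx
import Pool.Agent.H68.SS.Up3
import Pool.Agent.H68.SS.Ct

/-!
# MP_78d38b_T4 over a totally real field of `l`-type: both cases, semistable reduction above `l`
-/

set_option autoImplicit false
set_option linter.style.haveILetI false
open scoped Classical

open WeierstrassCurve IsDedekindDomain NumberField H5SW H68QS H68IM H68TL Pool.Agent.H10
  Pool.Agent.H11 H68TM

namespace H68SS

/-- The main theorem for composita, both cases. -/
theorem stable_comp_ss {l p M : ℕ} [Fact l.Prime] [Fact p.Prime] (hl2 : l ≠ 2) (hp2 : p ≠ 2)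
    (hlp : l ≠ p) (hlM : l ∣ M) (hM : M ≠ 0) {k N : Type} [Field k] [NumberField k] [Field N]
    [NumberField N] [Algebra k N] [IsGalois ℚ N] (hk : IsTotallyReal k) (hN : LT l M N)
    {JN : N ≃+* N} (hJN : IsCC JN) {E : WeierstrassCurve k} (hE : E.Δ ≠ 0)
    {T0 : (E.map (algebraMap k N)).toAffine.Point} (hT0 : T0 ≠ 0) (hTl : l • T0 = 0)
    (hh : (E.map (algebraMap k N)).map (JN : N →+* N) = E.map (algebraMap k N))
    (H : (pm (JN : N →+* N) hh T0 = -T0 ∧ SsOdd l (E.map (algebraMap k N)) T0) ∨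
      (pm (JN : N →+* N) hh T0 = T0 ∧ SsEven l (E.map (algebraMap k N)) T0)) :
    ∃ N0 : ℕ, ∀ (K' L' K L : Type) [Field K'] [NumberField K'] [Field L']
      [NumberField L'] [Field K] [NumberField K] [Field L] [NumberField L] [Algebra K' L']
      [Algebra K L] (C : Comp k K' L' K L), IsR p L' →
      (∃ i : ℕ, Module.finrank K' L' = p ^ i) → p ^ N0 ∣ Module.finrank ℚ K' →
      StableL l K L (E.map C.f) := by
  have hl : l.Prime := Fact.out
  have hl3 : 3 ≤ l := by
    have h2 := hl.two_le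
    omega
  obtain ⟨D, hD, hDg⟩ := exists_D hE hl.ne_zero
  obtain ⟨N0, hN0⟩ := exists_layer (p := p) hl2 hp2 hlp hlM hM hk hN hJN hD
  refine ⟨N0, ?_⟩
  intro K' L' K L _ _ _ _ _ _ _ _ _ _ C hL hi hK
  obtain ⟨Km, F, _, _, _, _, _, _, _, _, _, _, ν, h, J, X⟩ := hN0 K' L' K L C hL hi hK
  haveI := X.gal
  haveI := X.galL
  have hW := X.mapν E
  have hEL : ((E.map C.f).baseChange L).IsElliptic := by
    refine ⟨?_⟩
    rw [WeierstrassCurve.baseChange, WeierstrassCurve.map_Δ, WeierstrassCurve.map_Δ]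
    exact ((isUnit_iff_ne_zero.2 hE).map _).map _
  have hT1 : pm ν hW T0 ≠ 0 := by
    intro h0
    apply hT0
    apply pm_injective ν hW
    rw [h0, map_zero]
  have hT2 : l • pm ν hW T0 = 0 := by rw [← map_nsmul, hTl, map_zero]
  refine H78D.of_ctl hl X.nlL hEL ?_
  rcases H with ⟨hJ, het⟩ | ⟨hJ, hkr⟩
  · exact ct_lO (D := D) (h := h) (J := J) (T := pm ν hW T0)
      { prime := hl
        three := hl3
        tow := X.tow
        ell := X.ell hE hW
        T0 := hT1
        Tl := hT2
        Th := ⟨X.maph hW, X.hT hW T0⟩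
        TJ := ⟨X.mapJ hW, by rw [X.JT hW T0 hh, hJ, map_neg]⟩
        loc := locOdd_of_ss hl hl2 (X.ell hE hW).isUnit.ne_zero hT2 (ssOdd_up ν hW het)
        good := X.good hW hDg
        noE := X.noE
        noC := X.noC
        fixP := X.fixP } rfl rfl
  · exact ct_l2E (D := D) (h := h) (J := J) (T := pm ν hW T0)
      { prime := hl
        three := hl3
        tow := X.tow
        ell := X.ell hE hW
        T0 := hT1
        Tl := hT2
        Th := ⟨X.maph hW, X.hT hW T0⟩
        TJ := ⟨X.mapJ hW, by rw [X.JT hW T0 hh, hJ]⟩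
        loc := locEven_of_ss hl hl2 (X.ell hE hW).isUnit.ne_zero (ssEven_up ν hW hkr)
        good := X.good hW hDg
        noE := X.noE
        noC := X.noC
        fixP := X.fixP } rfl rfl

/-- `T` is a point of order `l` over the field `N` of the `f`-th roots of unity over `k`, the curve
is semistable over `N` above `l`, and either complex conjugation maps `T` to `-T` and `T` does not
reduce to the origin (to a nonsingular point), or complex conjugation fixes `T` and `T` generates
the points killed by `l` which reduce to the origin (to a nonsingular point). -/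
def SsPoint (l f : ℕ) {k : Type} [Field k] [NumberField k] (E : WeierstrassCurve k) : Prop :=
  ∃ (N : Type) (_ : Field N) (_ : NumberField N) (_ : Algebra k N)
    (_ : IsCyclotomicExtension {f} k N) (J : N ≃ₐ[k] N)
    (T : (E.map (algebraMap k N)).toAffine.Point)
    (hh : (E.map (algebraMap k N)).map (J : N →+* N) = E.map (algebraMap k N)),
    IsCC (J : N ≃+* N) ∧ T ≠ 0 ∧ l • T = 0 ∧
    ((pm (J : N →+* N) hh T = -T ∧ SsOdd l (E.map (algebraMap k N)) T) ∨
      (pm (J : N →+* N) hh T = T ∧ SsEven l (E.map (algebraMap k N)) T))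

theorem stable_tower_ss {l p f : ℕ} [Fact l.Prime] [Fact p.Prime] (hl2 : l ≠ 2) (hp2 : p ≠ 2)
    (hlp : l ≠ p) (hf : f ≠ 0) {k : Type} [Field k] [NumberField k] (hk : LType l k)
    {E : WeierstrassCurve k} (hE : E.Δ ≠ 0) (H : SsPoint l f E) :
    ∃ N : ℕ, ∀ (K L : Type) [Field K] [NumberField K] [Field L] [NumberField L]
      [Algebra k K] [Algebra k L] [Algebra K L] [IsScalarTower k K L],
      (∃ (L' : Type) (_ : Field L') (_ : NumberField L') (h : L' →+* L), IsR p L' ∧
        IntermediateField.adjoin k (Set.range h) = ⊤) →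
      (∃ j : ℕ, Module.finrank K L = p ^ j) → p ^ N ∣ Module.finrank ℚ K →
      StableL l K L (E.map (algebraMap k K)) := by
  have hl : l.Prime := Fact.out
  obtain ⟨N1, _, _, _, _, J1, T1, hh1, hJ1, hT1, hTl, H⟩ := H
  obtain ⟨M, N, _, _, ν, J, hlM, hM, hNG, hLT, hJ⟩ := exists_comp (m := l) hk hl.ne_zero hf N1
  haveI := hNG
  letI : Algebra k N := (ν.comp (algebraMap k N1)).toAlgebra
  have hν : (E.map (algebraMap k N1)).map ν = E.map (algebraMap k N) := by
    rw [WeierstrassCurve.map_map]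
    rfl
  have hJν : ∀ x, J (ν x) = ν (J1 x) := by
    intro x
    obtain ⟨φ⟩ := cc_emb N
    apply φ.injective
    rw [hJ]
    exact (hJ1 (φ.comp ν) x).symm
  have hJW : (E.map (algebraMap k N)).map (J : N →+* N) = E.map (algebraMap k N) := by
    rw [WeierstrassCurve.map_map]
    congr 1
    refine RingHom.ext fun x => ?_
    change J (ν (algebraMap k N1 x)) = ν (algebraMap k N1 x)
    rw [hJν, J1.commutes]
  have key : pm (J : N →+* N) hJW (pm ν hν T1) = pm ν hν (pm (J1 : N1 →+* N1) hh1 T1) := by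
    rw [pm_pm ν hν (J : N →+* N) hJW, pm_pm (J1 : N1 →+* N1) hh1 ν hν]
    exact pm_congr _ _ (fun x => hJν x) T1
  obtain ⟨N0, hN0⟩ := stable_comp_ss (p := p) (T0 := pm ν hν T1) hl2 hp2 hlp hlM hM hk.1 hLT
    hJ hE
    (by
      intro h0
      apply hT1
      apply pm_injective ν hν
      rw [h0, map_zero])
    (by rw [← map_nsmul, hTl, map_zero]) hJW
    (by
      rcases H with ⟨h1, h2⟩ | ⟨h1, h2⟩
      · left
        exact ⟨by rw [key, h1, map_neg], ssOdd_up ν hν h2⟩
      · right
        exact ⟨by rw [key, h1], ssEven_up ν hν h2⟩)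
  refine ⟨N0 + padicValNat p (Module.finrank ℚ k), ?_⟩
  intro K L _ _ _ _ _ _ _ _ ⟨L', _, _, h, hR, hgen⟩ ⟨j, hj⟩ hK
  obtain ⟨K', _, _, _, ⟨C, hC⟩, hd, hN'⟩ := decompose_l (K := K) h hR hgen
  have e1 : E.map C.f = E.map (algebraMap k K) := by
    congr 1
    exact RingHom.ext hC
  have h1 := hN0 K' L' K L C hR ⟨j, by rw [hd, hj]⟩ (hN' N0 hK)
  rw [e1] at h1
  exact h1

end H68SS
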