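import Pool.Agent.H68.SS.Raw
import Pool.Agent.H78.TE.Ub

/-!
ROW Un (unramified above `l`; about 150 lines; uses only the STATEMENT of `loc_raw_w` in Raw).  PROOF.
(1) `unr_of_locOdd`: as `H78D.unr_at_l` (`Pool/Agent/H78/TD/Uf.lean`) and `H78D.loc_et_T` (`Pool/Agent/H78/TD/Ub.lean`), with `loc_raw_w` for `loc_et`: `M = F⟮r⟯`, `Z σ := f σ = 0`, `TM = pm (algebraMap F M) rfl T`, `S = k • TM` (from injectivity of the map to the closure as in `loc_et_T`). In `hE`: `mp W j S = k • pm (algebraMap F L) rfl T`
(`mp W j TM = pm (algebraMap F L) rfl T`: `cases T`, `j.commutes`; or `map_eq_pm`, `pm_pm`, `pm_congr`), so `LocOdd` gives `l ∣ k`, and `f σ = k • .. = 0` as `l • T = 0`.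
(2) `unr_of_locEven`: as `H78D.unr_at_l2` (`Pool/Agent/H78/TE/Ub.lean`): `M = Kn W l ⊔ F⟮r⟯`, a number field; `Z σ := ∃ j, f σ = j • pm .. T`; in `hE`: `l • S = 0` (as there), `LocEven` gives `S = k • pm (algebraMap F M) rfl T`, apply the map to the closure.
-/

set_option autoImplicit false
open scoped Classical

open WeierstrassCurve IsDedekindDomain NumberField Pool.Agent.H10 Pool.Agent.H11 H78D

namespace H68SS

lemma mp_pm {F L M : Type} [Field F] [Field L] [Field M] [Algebra F L] [Algebra F M]
    (W : WeierstrassCurve F) (j : M →ₐ[F] L) (T : W.toAffine.Point) :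
    mp W j (pm (algebraMap F M) rfl T : (W.baseChange M).toAffine.Point) =
      (pm (algebraMap F L) rfl T : (W.baseChange L).toAffine.Point) := by
  cases T with
  | zero => rfl
  | some x y h =>
    show Affine.Point.some (j (algebraMap F M x)) (j (algebraMap F M y)) _ =
      Affine.Point.some (algebraMap F L x) (algebraMap F L y) _
    simp only [AlgHom.commutes]

lemma mp_nsmul_pm {F L M : Type} [Field F] [Field L] [Field M] [inst : DecidableEq M]
    [Algebra F L] [Algebra F M]
    (W : WeierstrassCurve F) (j : M →ₐ[F] L) (k : ℕ)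
    {S TM : (W.baseChange M).toAffine.Point} {TL : (W.baseChange L).toAffine.Point}
    (h : S = k • TM) (h2 : mp W j TM = TL) : mp W j S = k • TL := by
  obtain rfl : inst = fun a b => Classical.propDecidable (a = b) := Subsingleton.elim _ _
  rw [h, map_nsmul, h2]

theorem unr_of_locOdd {F : Type} [Field F] [NumberField F] (W : WeierstrassCurve F)
    [W.IsElliptic] {l : ℕ} (hl : l.Prime) (hroot : ∃ z : F, IsPrimitiveRoot z l)
    {T : W.toAffine.Point} (hT : l • T = 0) (hE : LocOdd l W T) (w : HeightOneSpectrum (𝓞 F))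
    (hw : (l : 𝓞 F) ∈ w.asIdeal) {f : Gam F → Pts W}
    (hf : ∀ σ, ∃ k : ℕ, f σ = k • pm (algebraMap F (AlgebraicClosure F)) rfl T)
    (hloc : IsLocTriv F W f) {r : AlgebraicClosure F} {d : F} (hd : d ≠ 0)
    (hrd : r ^ l = algebraMap F (AlgebraicClosure F) d) (hfix : ∀ σ : Gam F, f σ = 0 → σ r = r) :
    UnrK l F d w := by
  have hint : IsIntegral F r := Algebra.IsIntegral.isIntegral r
  have hfin : FiniteDimensional F (IntermediateField.adjoin F {r}) :=
    IntermediateField.adjoin.finiteDimensional hint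
  let ι : AlgebraicClosure F →ₐ[F] AlgebraicClosure (w.adicCompletion F) := IsAlgClosed.lift
  let TM : (W.baseChange (IntermediateField.adjoin F {r})).toAffine.Point :=
    pm (algebraMap F (IntermediateField.adjoin F {r})) rfl T
  let TT : (W.baseChange (AlgebraicClosure F)).toAffine.Point :=
    pm (algebraMap F (AlgebraicClosure F)) rfl T
  have hTM : (WeierstrassCurve.Affine.Point.map (IntermediateField.adjoin F {r}).val :
      (W.baseChange (IntermediateField.adjoin F {r})).toAffine.Point →+
        (W.baseChange (AlgebraicClosure F)).toAffine.Point) TM = TT :=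
    mp_pm W (IntermediateField.adjoin F {r}).val T
  have hlTT : l • TT = 0 := by
    show l • pm (algebraMap F (AlgebraicClosure F)) rfl T = 0
    rw [← map_nsmul, hT, map_zero]
  have hf' : ∀ σ, ∃ k : ℕ, f σ = k • TT := hf
  have hinj := WeierstrassCurve.Affine.Point.map_injective (W' := W)
    (f := (IntermediateField.adjoin F {r}).val)
  obtain ⟨V, hV, hV2⟩ := loc_raw_w W w ι (IntermediateField.adjoin F {r}) f (fun σ ↦ f σ = 0)
    (fun σ ↦ by
      obtain ⟨k, hk⟩ := hf' σ
      exact ⟨k • TM, by rw [map_nsmul, hTM, hk]⟩) (hloc.1 w ι) (by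
      intro L _ _ A t hI j σ S P hS hP
      obtain ⟨k, hk⟩ := hf' σ
      have hSk : S = k • TM := by
        apply hinj
        rw [map_nsmul, hTM, ← hk]
        exact hS
      have h1 : k • (pm (algebraMap F L) rfl T : (W.baseChange L).toAffine.Point) =
          mp W t P - P := by
        rw [← hP]
        exact (mp_nsmul_pm W j k hSk (mp_pm W j T)).symm
      obtain ⟨c, rfl⟩ := hE w hw L A t hI P k h1
      show f σ = 0
      rw [hk, mul_nsmul, hlTT, nsmul_zero])
  refine unr_of_place hl hroot hd w (M := IntermediateField.adjoin F {r})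
    (r := ⟨r, IntermediateField.mem_adjoin_simple_self F r⟩) (Subtype.ext hrd) V hV
    fun α hα => hV2 α hα fun σ hσ => ?_
  have h1 : IntermediateField.adjoin F {r} ≤ IntermediateField.fixedField (Subgroup.zpowers σ) := by
    rw [IntermediateField.adjoin_simple_le_iff]
    rw [IntermediateField.mem_fixedField_iff]
    intro τ hτ
    obtain ⟨n, rfl⟩ := Subgroup.mem_zpowers_iff.1 hτ
    have h2 : σ ∈ MulAction.stabilizer (Gam F) r := hfix σ hσ
    exact Subgroup.zpow_mem _ h2 n
  have h3 := h1 α.2
  rw [IntermediateField.mem_fixedField_iff] at h3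
  exact h3 σ (Subgroup.mem_zpowers σ)

lemma locEven_use {l : ℕ} {F : Type} [Field F] [NumberField F] {W : WeierstrassCurve F}
    {T : W.toAffine.Point} (hK : LocEven l W T) {w : HeightOneSpectrum (𝓞 F)}
    (hw : (l : 𝓞 F) ∈ w.asIdeal) (M : Type) [Field M] [NumberField M] [Algebra F M]
    [inst : DecidableEq M] (S : (W.baseChange M).toAffine.Point) (hS : l • S = 0)
    (L : Type) [Field L] [Algebra F L] (A : ValuationSubring L) (t : L →ₐ[F] L) (hI : Iner w A t)
    (j : M →ₐ[F] L) (P : (W.baseChange L).toAffine.Point) (h : mp W j S = mp W t P - P) :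
    ∃ k : ℕ, S = k • (pm (algebraMap F M) rfl T : (W.baseChange M).toAffine.Point) := by
  obtain rfl : inst = fun a b => Classical.propDecidable (a = b) := Subsingleton.elim _ _
  exact hK w hw M S hS L A t hI j P h

theorem unr_of_locEven {F : Type} [Field F] [NumberField F] (W : WeierstrassCurve F)
    [W.IsElliptic] {l : ℕ} (hl : l.Prime) (hroot : ∃ z : F, IsPrimitiveRoot z l)
    {T : W.toAffine.Point} (hK : LocEven l W T) (w : HeightOneSpectrum (𝓞 F))
    (hw : (l : 𝓞 F) ∈ w.asIdeal) {f : Gam F → Pts W} (hf : ∀ σ, l • f σ = 0)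
    (hloc : IsLocTriv F W f) {r : AlgebraicClosure F} {d : F} (hd : d ≠ 0)
    (hrd : r ^ l = algebraMap F (AlgebraicClosure F) d)
    (hfix : ∀ σ : Gam F, (∃ j : ℕ, f σ = j • pm (algebraMap F (AlgebraicClosure F)) rfl T) →
      σ r = r) : UnrK l F d w := by
  have hl0 : l ≠ 0 := hl.ne_zero
  have hfin : FiniteDimensional F (Kn W l) := Kn_finite W l hl0
  have hint : IsIntegral F r := Algebra.IsIntegral.isIntegral r
  have hfin2 : FiniteDimensional F (IntermediateField.adjoin F {r}) :=
    IntermediateField.adjoin.finiteDimensional hint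
  obtain ⟨M, hM⟩ : ∃ M : IntermediateField F (AlgebraicClosure F), M = Kn W l ⊔ IntermediateField.adjoin F {r} :=
    ⟨_, rfl⟩
  have hfin3 : FiniteDimensional F M := by
    rw [hM]
    exact IntermediateField.finiteDimensional_sup _ _
  have hKn : Kn W l ≤ M := by
    rw [hM]
    exact le_sup_left
  have hrM : IntermediateField.adjoin F {r} ≤ M := by
    rw [hM]
    exact le_sup_right
  have hNM : NumberField M := NumberField.of_module_finite F M
  let ι : AlgebraicClosure F →ₐ[F] AlgebraicClosure (w.adicCompletion F) := IsAlgClosed.lift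
  let TM : (W.baseChange M).toAffine.Point := pm (algebraMap F M) rfl T
  have hTM : (WeierstrassCurve.Affine.Point.map M.val :
      (W.baseChange M).toAffine.Point →+ (W.baseChange (AlgebraicClosure F)).toAffine.Point) TM =
      pm (algebraMap F (AlgebraicClosure F)) rfl T := mp_pm W M.val T
  obtain ⟨V, hV, hV2⟩ := loc_raw_w W w ι M f
    (fun σ ↦ ∃ j : ℕ, f σ = j • pm (algebraMap F (AlgebraicClosure F)) rfl T)
    (fun σ ↦ exists_descend W hKn (f σ) (hf σ)) (hloc.1 w ι) (by
      intro L _ _ A t hI j σ S P hS hP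
      have hlS : l • S = 0 := by
        apply WeierstrassCurve.Affine.Point.map_injective (W' := W) (f := M.val)
        rw [map_nsmul, map_zero]
        rw [hS]
        exact hf σ
      obtain ⟨k, hk⟩ := locEven_use hK hw M S hlS L A t hI j P hP
      refine ⟨k, ?_⟩
      have hk' : S = k • TM := hk
      rw [← hS, hk', map_nsmul, hTM]
      rfl)
  obtain ⟨i0, hi0⟩ : ∃ i0 : IntermediateField.adjoin F {r} →+* M, ∀ x, ((i0 x : M) : AlgebraicClosure F) = x :=
    ⟨(IntermediateField.inclusion hrM).toRingHom, fun x => rfl⟩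
  refine unr_of_place hl hroot hd w (M := IntermediateField.adjoin F {r})
    (r := ⟨r, IntermediateField.mem_adjoin_simple_self F r⟩) (Subtype.ext hrd) (V.comap i0) ?_ ?_
  · intro x
    rw [ValuationSubring.mem_comap, ← hV]
    have : i0 (algebraMap F (IntermediateField.adjoin F {r}) x) = algebraMap F M x := by
      apply Subtype.ext
      rw [hi0]
      rfl
    rw [this]
  · intro α hα
    have hα' : i0 α ≠ 0 := (map_ne_zero _).2 hα
    obtain ⟨c, hc, h1, h2⟩ := hV2 (i0 α) hα' (fun σ hσ => by
      rw [hi0]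
      have h1 : IntermediateField.adjoin F {r} ≤ IntermediateField.fixedField (Subgroup.zpowers σ) := by
        rw [IntermediateField.adjoin_simple_le_iff]
        rw [IntermediateField.mem_fixedField_iff]
        intro τ hτ
        obtain ⟨n, rfl⟩ := Subgroup.mem_zpowers_iff.1 hτ
        have h2 : σ ∈ MulAction.stabilizer (Gam F) r := hfix σ hσ
        exact Subgroup.zpow_mem _ h2 n
      have h3 := h1 α.2
      rw [IntermediateField.mem_fixedField_iff] at h3
      exact h3 σ (Subgroup.mem_zpowers σ))
    have h3 : i0 (algebraMap F (IntermediateField.adjoin F {r}) c) = algebraMap F M c := by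
      apply Subtype.ext
      rw [hi0]
      rfl
    refine ⟨c, hc, ?_, ?_⟩
    · rw [ValuationSubring.mem_comap, map_div₀, h3]
      exact h1
    · rw [ValuationSubring.mem_comap, map_inv₀, map_div₀, h3]
      exact h2

end H68SS
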