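import Pool.Agent.H78.TE.Df

/-!
# MP_78d38b_T4, semistable reduction above `l` (definitions, no row)
-/

set_option autoImplicit false
open scoped Classical

open WeierstrassCurve IsDedekindDomain NumberField Pool.Agent.H10 Pool.Agent.H11

namespace H68SS

/-- `t` is an endomorphism of `L` of the kind of an element of the inertia group of the valuation ring
`A`, which lies above the prime `w`. -/
structure Iner {F L : Type} [Field F] [NumberField F] [Field L] [Algebra F L]
    (w : HeightOneSpectrum (𝓞 F)) (A : ValuationSubring L) (t : L →ₐ[F] L) : Prop where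
  under : ∀ x : F, algebraMap F L x ∈ A ↔ w.valuation F x ≤ 1
  mem : ∀ a ∈ A, A.valuation (t a - a) < 1
  nmem : ∀ a ∉ A, t a ∉ A
  val : ∀ a : L, A.valuation (t a) = A.valuation a

/-- The map on points along a homomorphism of fields over `F`. -/
noncomputable abbrev mp {F L L' : Type} [Field F] [Field L] [Field L'] [Algebra F L] [Algebra F L']
    (W : WeierstrassCurve F) (t : L →ₐ[F] L') :
    (W.baseChange L).toAffine.Point →+ (W.baseChange L').toAffine.Point :=
  WeierstrassCurve.Affine.Point.map t

/-- A multiple of `T` of the form `t P - P` is zero. -/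
def LocOdd (l : ℕ) {F : Type} [Field F] [NumberField F] (W : WeierstrassCurve F)
    (T : W.toAffine.Point) : Prop :=
  ∀ w : HeightOneSpectrum (𝓞 F), (l : 𝓞 F) ∈ w.asIdeal → ∀ (L : Type) [Field L] [Algebra F L]
    (A : ValuationSubring L) (t : L →ₐ[F] L), Iner w A t →
    ∀ (P : (W.baseChange L).toAffine.Point) (k : ℕ),
      k • pm (algebraMap F L) rfl T = mp W t P - P → l ∣ k

/-- A point killed by `l` of the form `t P - P` is a multiple of `T`. -/
def LocEven (l : ℕ) {F : Type} [Field F] [NumberField F] (W : WeierstrassCurve F)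
    (T : W.toAffine.Point) : Prop :=
  ∀ w : HeightOneSpectrum (𝓞 F), (l : 𝓞 F) ∈ w.asIdeal → ∀ (M : Type) [Field M] [NumberField M]
    [Algebra F M] (S : (W.baseChange M).toAffine.Point), l • S = 0 →
    ∀ (L : Type) [Field L] [Algebra F L] (A : ValuationSubring L) (t : L →ₐ[F] L), Iner w A t →
    ∀ (j : M →ₐ[F] L) (P : (W.baseChange L).toAffine.Point),
      mp W j S = mp W t P - P → ∃ k : ℕ, S = k • pm (algebraMap F M) rfl T

/-- The equation is integral at `w` with unit discriminant. -/
def GoodEq {F : Type} [Field F] [NumberField F] (w : HeightOneSpectrum (𝓞 F))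
    (W : WeierstrassCurve F) : Prop :=
  w.valuation F W.a₁ ≤ 1 ∧ w.valuation F W.a₂ ≤ 1 ∧ w.valuation F W.a₃ ≤ 1 ∧
    w.valuation F W.a₄ ≤ 1 ∧ w.valuation F W.a₆ ≤ 1 ∧ w.valuation F W.Δ = 1

/-- The equation is `y ^ 2 = x ^ 3 + a x ^ 2 + b x + c` with a unit `a`, and `b`, `c` in the prime
`w`: the reduction is multiplicative, the node is `(0, 0)`. -/
def NodeEq {F : Type} [Field F] [NumberField F] (w : HeightOneSpectrum (𝓞 F))
    (W : WeierstrassCurve F) : Prop :=
  W.a₁ = 0 ∧ W.a₃ = 0 ∧ w.valuation F W.a₂ = 1 ∧ w.valuation F W.a₄ < 1 ∧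
    w.valuation F W.a₆ < 1

/-- The new `x`-coordinate after a change of variables. -/
def newX {F : Type} [Field F] (C : VariableChange F) (x : F) : F := (C.u⁻¹ : Fˣ) ^ 2 * (x - C.r)

/-- The new `y`-coordinate after a change of variables. -/
def newY {F : Type} [Field F] (C : VariableChange F) (x y : F) : F :=
  (C.u⁻¹ : Fˣ) ^ 3 * (y - C.s * (x - C.r) - C.t)

/-- Above `l` the curve is semistable and `T` does not reduce to the origin (good reduction) or
reduces to the node (multiplicative reduction). -/
def SsOdd (l : ℕ) {F : Type} [Field F] [NumberField F] (W : WeierstrassCurve F)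
    (T : W.toAffine.Point) : Prop :=
  ∃ x y h, T = Affine.Point.some x y h ∧ ∀ w : HeightOneSpectrum (𝓞 F), (l : 𝓞 F) ∈ w.asIdeal →
    ∃ C : VariableChange F, (GoodEq w (C • W) ∧ w.valuation F (newX C x) ≤ 1) ∨
      (NodeEq w (C • W) ∧ w.valuation F (newX C x) < 1)

/-- Above `l` the curve is semistable, and over all number fields the points killed by `l` which
reduce to the origin (good reduction) or do not reduce to the node (multiplicative reduction) are
multiples of `T`. -/
def SsEven (l : ℕ) {F : Type} [Field F] [NumberField F] (W : WeierstrassCurve F)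
    (T : W.toAffine.Point) : Prop :=
  ∀ w : HeightOneSpectrum (𝓞 F), (l : 𝓞 F) ∈ w.asIdeal →
    ∃ C : VariableChange F, (GoodEq w (C • W) ∨ NodeEq w (C • W)) ∧
      ∀ (M : Type) [Field M] [NumberField M] [Algebra F M] (q : HeightOneSpectrum (𝓞 M)),
        (∀ x : 𝓞 F, algebraMap (𝓞 F) (𝓞 M) x ∈ q.asIdeal ↔ x ∈ w.asIdeal) →
        ∀ (x y : M) (h : (W.map (algebraMap F M)).toAffine.Nonsingular x y),
          l • Affine.Point.some x y h = 0 →
          (GoodEq w (C • W) ∧ 1 < q.valuation M (newX (C.map (algebraMap F M)) x) ∨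
            NodeEq w (C • W) ∧ 1 ≤ q.valuation M (newX (C.map (algebraMap F M)) x)) →
          ∃ k : ℕ, Affine.Point.some x y h = k • pm (algebraMap F M) rfl T

end H68SS
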