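import Pool.Agent.H68.SS.OS1
import Pool.Agent.H68.SS.OS2
import Pool.Agent.H78.TD.Gb
import Pool.Agent.H68.SS.Da

/-!
MP_78d38b_T4, semistable reduction above `l`: copy of helper78 (TD/S3) for the structures `DatO`, `DatE` (no row).
-/


set_option autoImplicit false
open scoped Classical

open WeierstrassCurve IsDedekindDomain NumberField Pool.Agent.H10 Pool.Agent.H11 H78D

namespace H68SS

theorem coreO {K Km L F : Type} [Field K] [NumberField K] [Field Km] [NumberField Km] [Field L]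
    [NumberField L] [Field F] [NumberField F] [Algebra K L] [Algebra K F] [Algebra L F]
    [IsScalarTower K L F] [Algebra K Km] [Algebra Km F] [IsScalarTower K Km F] [Normal K L]
    [Normal K F] [IsGalois Km F] {V : WeierstrassCurve K} {W : WeierstrassCurve F} {l : ℕ}
    {T : W.toAffine.Point} {h : F ≃ₐ[Km] F} {J : F ≃ₐ[L] F} {D : ℤ}
    (H : DatO l K Km L F W T h J D) (hV : V.map (algebraMap K F) = W)
    {f : (AlgebraicClosure F ≃ₐ[K] AlgebraicClosure F) →
      (W.baseChange (AlgebraicClosure F)).toAffine.Point} (hf : SC l L hV f)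
    (g : AlgebraicClosure F ≃ₐ[K] AlgebraicClosure F) :
    ∃ S, l • S = 0 ∧ ∀ s ∈ SA K L (AlgebraicClosure F),
      cjf (act (inv_up hV)) g f s = f s + (act (inv_up hV) s S - S) := by
  have hρ : Rho (act (inv_up hV)) := rho_act _
  haveI := H.ell
  obtain ⟨Jh, hJh, hJ, hJJ⟩ := exists_JhO H
  obtain ⟨hT0, hTl⟩ := pt_neO H
  have hμ : ∀ σ ∈ SA K Km (AlgebraicClosure F), ∀ z : AlgebraicClosure F, z ^ l = 1 → σ z = z := by
    intro σ hσ z hz
    obtain ⟨y, rfl⟩ := rootsO H z hz
    exact hσ y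
  obtain ⟨e, he, hker, hKp, heJ⟩ := exists_weil (Km := Km) hV H.prime H.three hT0 hTl
    (pt_negO H hV hJ) (roots_JO H hJ) hμ (pt_fixO H hV)
  have hleK : SA K F (AlgebraicClosure F) ≤ SA K Km (AlgebraicClosure F) := SA_le
  have hleL : SA K F (AlgebraicClosure F) ≤ SA K L (AlgebraicClosure F) := SA_le
  obtain ⟨hh, hlift, hhP, heP⟩ := exists_hh (Km := Km) hV H.prime H.tow.cop he
    (f := f) (fun s hs t ht => hf.coc s (hleL hs) t (hleL ht))
    (fun s hs => hf.tor s (hleL hs)) (fun s hs => hKp s (hleK hs))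
  have hR : l • f (hh ^ orderOf h) = 0 := hf.tor _ (hleL hhP)
  have hRT := (hker _ hR).1 heP
  have sc1 : SC l L hV (fun s => cjf (act (inv_up hV)) hh f s - f s) := sc_conj hf hh
  have hnew : New L hV hh (orderOf h) (f (hh ^ orderOf h))
      (fun s => cjf (act (inv_up hV)) hh f s - f s) := by
    intro s hs
    rw [sum_cjf hρ, cjf_inner hρ hf.coc (hleL hhP) hs]
    abel
  have h1 := step1O H hV he hKp hJh hJ heJ hlift hR sc1 hnew
  have h0 := step2O H hV he hker hJh hJ hJJ heJ hlift hRT sc1 hnew h1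
  haveI : (SA K L (AlgebraicClosure F)).Normal := SA_normal
  haveI : (SA K F (AlgebraicClosure F)).Normal := SA_normal
  have hB := triv_of_fix hρ H.prime hT0 hTl he hker H.tow.cop hhP
    (pt_fixO H hV hh (lift_mem hlift)) (fun x hx => (hKp hh (lift_mem hlift) x hx).2)
  obtain ⟨R', hR', hf1⟩ := vanish hρ H.prime hleL H.tow.cop sc1.coc sc1.tor h0
    (fun s hs => comm_mem H.tow.comm hlift hs) hB hR hnew
  obtain ⟨j, t, ht, rfl⟩ := cover (L := L) H.tow.cov hlift g
  refine all_of_one hρ hf.coc hf.tor hR' ?_ ht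
  intro s hs
  rw [← hf1 s hs]
  abel

end H68SS
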