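import Pool.Agent.H68.SS.Df
import Pool.Agent.H78.TD.Ua
import Pool.Agent.H78.TD.Ub

/-!
ROW Raw (the local theorem without a condition on the reduction; about 260 lines, a modification of two existing proofs).  PROOF.
(1) `loc_raw`: COPY the proof of `H78D.loc_main_et` in `Pool/Agent/H78/TD/Ua.lean` (universes: everything in `Type`), dropping `WA`, `hWA`, `hΔ`, `hbc`, `hWI`, `hWΔ`, `hQ`, `hS₁E`. In `key` (for `τ₀` in the inertia group) the data `L`, `AV`, `j`, `t`, `P'`, `S₁` are constructed, with
`h7 : map j S₁ = map t P' - P'`, `hS₁ : map M.val S₁ = f σ`, `ht`, `ht'`; the hypothesis `hE` applied to them gives `Z σ`. Its other hypotheses: `hA : ∀ x : K, algebraMap K L x ∈ AV ↔ ∃ a, algebraMap A F a = algebraMap K F x` is in the source in the proof of `hV` (`w_le_iff`), and `hval : ∀ a : L, AV.valuation (t a) = AV.valuation a`: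
by `hAVeq` (`Valuation.IsEquiv`, `le_antisymm` with `isEquiv` on `≤`: `hAVeq x y : w.valuation L x ≤ w.valuation L y ↔ ..`) it is enough that `w.valuation L (τ₀ a) = w.valuation L a`. `τ₀` is in the inertia group, so it maps `w.asIdeal` onto itself; both `w.valuation L` and its composite with `τ₀` are valuations with the same valuation
ring (`inertia_sub_lt`, `inertia_not_le` for `τ₀`); for `x` in `B = integralClosure A L`: `w.valuation L x ≤ exp (-n) ↔ x ∈ w.asIdeal ^ n` (`HeightOneSpectrum.valuation_le_pow_iff_mem`-type lemma, `intValuation_le_pow_iff_mem`), and `τ₀` maps `w.asIdeal ^ n` onto itself; for general `a = x / y`. (Or: the relation `w.valuation L (τ₀ a) = w.valuation L a`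
may be deduced from `exists_val_eq`-like lemmas in `Pool/Agent/H11/LocMain.lean`; look there first. Another way: `θ := (w.valuation L).comap τ₀` is equivalent to `w.valuation L` (same valuation ring, `Valuation.isEquiv_iff_valuationSubring`), there is `π` with `w.valuation L π = exp (-1)`, for `n ≥ 1` with `w.valuation L (τ₀ π) = exp (-n)`;
equivalence gives `w.valuation L (τ₀ a) = exp (n k)` when `w.valuation L a = exp k`, and the same for `τ₀⁻¹`, so `n = 1`.)
(2) `loc_raw_w`: COPY the proof of `H78D.loc_et` in `Pool/Agent/H78/TD/Ub.lean`, dropping `hg`, `WA`, `hWA`, `hΔ'`; `hconv` is as there (for `V` over `M`, and the same computation for `AV` over `L`), `mem` only needs `w.valuation F x ≤ 1`. Here `f` has values which are points over `M`, `Iner w AV t` collects the three conditions.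
-/

set_option autoImplicit false
open scoped Classical

open IsDedekindDomain WeierstrassCurve WeierstrassCurve.Affine Pool.Agent.H11 Pool.Agent.H10 NumberField
  H78D

namespace H68SS

section val

open Ideal

variable {B L G : Type*} [CommRing B] [IsDedekindDomain B] [Field L] [Algebra B L]
  [IsFractionRing B L] [Group G] [MulSemiringAction G B] [MulSemiringAction G L]
  [SMulDistribClass G B L]

theorem raw_val_le (w : HeightOneSpectrum B) (g : G) (hg : g ∈ w.asIdeal.inertia G) (x : L)
    (hx : w.valuation L x ≤ 1) : w.valuation L (g • x) ≤ w.valuation L x := by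
  have hle : ∀ y : L, w.valuation L y ≤ 1 → w.valuation L (g • y) ≤ 1 := by
    intro y hy
    have h1 := inertia_sub_lt w g hg y hy
    have h2 := (w.valuation L).map_add_le h1.le hy
    rwa [sub_add_cancel] at h2
  obtain ⟨π, hπ⟩ := w.valuation_exists_uniformizer L
  have hπ1 : w.valuation L π < 1 := by
    rw [hπ, ← WithZero.exp_zero]
    exact WithZero.exp_lt_exp.mpr (by norm_num)
  have hgπ : w.valuation L (g • π) ≤ w.valuation L π := by
    have h1 := inertia_sub_lt w g hg π hπ1.le
    have h2 := (w.valuation L).map_add_lt h1 hπ1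
    rw [sub_add_cancel] at h2
    rw [hπ]
    by_cases h0 : w.valuation L (g • π) = 0
    · rw [h0]; exact zero_le
    · rw [← WithZero.exp_log h0] at h2 ⊢
      rw [← WithZero.exp_zero, WithZero.exp_lt_exp] at h2
      rw [WithZero.exp_le_exp]
      omega
  by_cases hx0 : x = 0
  · rw [hx0, smul_zero]
  · have hvx : w.valuation L x ≠ 0 := (Valuation.ne_zero_iff _).mpr hx0
    obtain ⟨k, hk⟩ : ∃ k : ℕ, w.valuation L x = w.valuation L π ^ k := by
      refine ⟨(-WithZero.log (w.valuation L x)).toNat, ?_⟩
      rw [← WithZero.exp_log hvx, ← WithZero.exp_zero, WithZero.exp_le_exp] at hx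
      rw [hπ, ← WithZero.exp_nsmul]
      conv_lhs => rw [← WithZero.exp_log hvx]
      congr 1
      rw [nsmul_eq_mul, Int.toNat_of_nonneg (by omega)]
      ring
    have hπ0 : π ≠ 0 := by
      rintro rfl
      rw [map_zero] at hπ
      exact WithZero.exp_ne_zero hπ.symm
    have hu : w.valuation L (x / π ^ k) = 1 := by
      rw [map_div₀, map_pow, ← hk, div_self hvx]
    have h1 := hle _ hu.le
    have h2 : g • x = g • (x / π ^ k) * (g • π) ^ k := by
      rw [← smul_pow', ← smul_mul', div_mul_cancel₀ _ (pow_ne_zero k hπ0)]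
    rw [h2, map_mul, map_pow, hk]
    calc w.valuation L (g • (x / π ^ k)) * w.valuation L (g • π) ^ k
        ≤ 1 * w.valuation L π ^ k := mul_le_mul' h1 (pow_le_pow_left' hgπ k)
      _ = w.valuation L π ^ k := one_mul _

theorem raw_val (w : HeightOneSpectrum B) (g : G) (hg : g ∈ w.asIdeal.inertia G) (x : L) :
    w.valuation L (g • x) = w.valuation L x := by
  have key : ∀ y : L, w.valuation L y ≤ 1 → w.valuation L (g • y) = w.valuation L y := by
    intro y hy
    have h1 := raw_val_le w g hg y hy
    refine le_antisymm h1 ?_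
    have h2 := raw_val_le w g⁻¹ (inv_mem hg) (g • y) (h1.trans hy)
    rwa [inv_smul_smul] at h2
  rcases le_total (w.valuation L x) 1 with hx | hx
  · exact key x hx
  · have hx' : w.valuation L x⁻¹ ≤ 1 := by
      rw [map_inv₀]
      exact inv_le_one_of_one_le₀ hx
    have h1 := key x⁻¹ hx'
    rw [smul_inv'', map_inv₀, map_inv₀] at h1
    exact inv_injective h1

end val

theorem raw_dec {L : Type} [Field L] (V : WeierstrassCurve L) (d1 d2 : DecidableEq L)
    (R P Q : V.toAffine.Point)
    (h : R = @HSub.hSub V.toAffine.Point V.toAffine.Point V.toAffine.Point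
      (@instHSub _ (@SubNegMonoid.toSub _ (@AddGroup.toSubNegMonoid _
        (@AddCommGroup.toAddGroup _ (@Point.instAddCommGroup L _ V d1))))) P Q) :
    R = @HSub.hSub V.toAffine.Point V.toAffine.Point V.toAffine.Point
      (@instHSub _ (@SubNegMonoid.toSub _ (@AddGroup.toSubNegMonoid _
        (@AddCommGroup.toAddGroup _ (@Point.instAddCommGroup L _ V d2))))) P Q := by
  have e : d1 = d2 := Subsingleton.elim _ _
  subst e
  exact h

theorem loc_raw (K F A : Type) [Field K] [Field F] [Algebra K F] [CharZero F]
    [CommRing A] [IsDomain A] [IsDiscreteValuationRing A] [Ring.HasFiniteQuotients A]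
    [Algebra A F] [IsFractionRing A F]
    (hKF : ∀ x : F, x ≠ 0 → ∃ k : K, k ≠ 0 ∧ ∃ u : A, IsUnit u ∧
      x = algebraMap K F k * algebraMap A F u)
    (W : WeierstrassCurve K)
    (ι : AlgebraicClosure K →ₐ[K] AlgebraicClosure F)
    (M : IntermediateField K (AlgebraicClosure K)) [FiniteDimensional K M]
    (f : (AlgebraicClosure K ≃ₐ[K] AlgebraicClosure K) →
      (W.baseChange (AlgebraicClosure K)).toAffine.Point)
    (Z : (AlgebraicClosure K ≃ₐ[K] AlgebraicClosure K) → Prop)
    (hf : ∀ σ, ∃ S : (W.baseChange M).toAffine.Point,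
      WeierstrassCurve.Affine.Point.map M.val S = f σ)
    (P : (W.baseChange (AlgebraicClosure F)).toAffine.Point)
    (hP : ∀ (τ : AlgebraicClosure F ≃ₐ[F] AlgebraicClosure F)
      (σ : AlgebraicClosure K ≃ₐ[K] AlgebraicClosure K),
      (τ.toAlgHom.restrictScalars K).comp ι = ι.comp σ.toAlgHom →
      (WeierstrassCurve.Affine.Point.map ι :
        (W.baseChange (AlgebraicClosure K)).toAffine.Point →+
          (W.baseChange (AlgebraicClosure F)).toAffine.Point) (f σ) =
        (WeierstrassCurve.Affine.Point.map (τ.toAlgHom.restrictScalars K) :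
          (W.baseChange (AlgebraicClosure F)).toAffine.Point →+
            (W.baseChange (AlgebraicClosure F)).toAffine.Point) P - P)
    (hE : ∀ (L : Type) [Field L] [Algebra K L] (AV : ValuationSubring L) (t : L →ₐ[K] L),
      (∀ x : K, algebraMap K L x ∈ AV ↔ ∃ a : A, algebraMap A F a = algebraMap K F x) →
      (∀ a ∈ AV, AV.valuation (t a - a) < 1) → (∀ a ∉ AV, t a ∉ AV) →
      (∀ a : L, AV.valuation (t a) = AV.valuation a) →
      ∀ (j : M →ₐ[K] L) (σ : AlgebraicClosure K ≃ₐ[K] AlgebraicClosure K)
        (S : (W.baseChange M).toAffine.Point) (P' : (W.baseChange L).toAffine.Point),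
        WeierstrassCurve.Affine.Point.map M.val S = f σ →
        (WeierstrassCurve.Affine.Point.map j : (W.baseChange M).toAffine.Point →+
          (W.baseChange L).toAffine.Point) S = (WeierstrassCurve.Affine.Point.map t :
          (W.baseChange L).toAffine.Point →+ (W.baseChange L).toAffine.Point) P' - P' → Z σ) :
    ∃ V : ValuationSubring M, (∀ x : K, algebraMap K M x ∈ V ↔
        ∃ a : A, algebraMap A F a = algebraMap K F x) ∧
      ∀ α : M, α ≠ 0 → (∀ σ : AlgebraicClosure K ≃ₐ[K] AlgebraicClosure K, Z σ →
        σ (α : AlgebraicClosure K) = α) →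
        ∃ c : K, c ≠ 0 ∧ α / algebraMap K M c ∈ V ∧ (α / algebraMap K M c)⁻¹ ∈ V := by
  -- the finite Galois extension `L` of `F`
  let b := Module.finBasis K M
  let S : Set (AlgebraicClosure F) := Set.range (fun i ↦ ι (b i)) ∪ coordSet P
  have hSfin : Finite S := (Set.finite_range _).union (coordSet_finite P)
  let F₀ : IntermediateField F (AlgebraicClosure F) := IntermediateField.adjoin F S
  have hF₀ : FiniteDimensional F F₀ :=
    IntermediateField.finiteDimensional_adjoin fun x _ ↦ Algebra.IsIntegral.isIntegral x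
  let L : IntermediateField F (AlgebraicClosure F) :=
    IntermediateField.normalClosure F F₀ (AlgebraicClosure F)
  have hLle : F₀ ≤ L := IntermediateField.le_normalClosure F₀
  have hLfin : FiniteDimensional F L := normalClosure.is_finiteDimensional F F₀ (AlgebraicClosure F)
  have hLn : Normal F L := normalClosure.normal F F₀ (AlgebraicClosure F)
  have hLgal : IsGalois F L := { }
  have hιM : ∀ m : M, ι m ∈ L := by
    intro m
    apply hLle
    have : (m : AlgebraicClosure K) = ∑ i, (b.repr m i) • (b i : AlgebraicClosure K) := by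
      have h := congrArg M.val (b.sum_repr m)
      rw [map_sum] at h
      rw [← IntermediateField.coe_val, ← h]
      rfl
    rw [this, map_sum]
    apply sum_mem
    intro i _
    rw [map_smul, Algebra.smul_def, IsScalarTower.algebraMap_apply K F (AlgebraicClosure F)]
    exact mul_mem (F₀.algebraMap_mem _)
      (IntermediateField.subset_adjoin F S (Or.inl ⟨i, rfl⟩))
  let j : M →ₐ[K] L :=
    { toFun := fun m ↦ ⟨ι m, hιM m⟩
      map_one' := by ext; simp
      map_mul' := fun x y ↦ by ext; simp
      map_zero' := by ext; simp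
      map_add' := fun x y ↦ by ext; simp
      commutes' := fun x ↦ by
        ext
        exact ι.commutes x }
  let g : L →ₐ[K] AlgebraicClosure F := L.val.restrictScalars K
  obtain ⟨P', hP'⟩ := exists_point_of_coords W g P (by
    intro x hx
    exact ⟨⟨x, hLle (IntermediateField.subset_adjoin F S (Or.inr hx))⟩, rfl⟩)
  -- the local ring
  have tAL : IsScalarTower A F L := IsScalarTower.of_algebraMap_eq fun _ ↦ rfl
  have hD : IsDedekindDomain (integralClosure A L) := ic_dedekind A F L
  have hFr : IsFractionRing (integralClosure A L) L := ic_frac A F L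
  obtain ⟨w⟩ := exists_prime A F L
  let AV : ValuationSubring L := (w.valuation L).valuationSubring
  have hAVeq : (w.valuation L).IsEquiv AV.valuation :=
    Valuation.isEquiv_valuation_valuationSubring _
  have hmemA : ∀ a : A, algebraMap A L a ∈ AV := fun a ↦ w_le_of_mem w a
  have hA : ∀ x : K, algebraMap K L x ∈ AV ↔ ∃ a : A, algebraMap A F a = algebraMap K F x := by
    intro x
    rw [← w_le_iff w, IsScalarTower.algebraMap_apply K F L]
    exact Iff.rfl
  have hV : ∀ x : K, algebraMap K M x ∈ AV.comap (j : M →+* L) ↔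
      ∃ a : A, algebraMap A F a = algebraMap K F x := by
    intro x
    rw [← w_le_iff w, ValuationSubring.mem_comap]
    have : (j : M →+* L) (algebraMap K M x) = algebraMap F L (algebraMap K F x) := by
      rw [← IsScalarTower.algebraMap_apply K F L]
      exact j.commutes x
    rw [this]
    exact Iff.rfl
  refine ⟨AV.comap (j : M →+* L), hV, fun α hα hα2 ↦ ?_⟩
  have key : ∀ τ₀ ∈ w.asIdeal.inertia Gal(L/F), τ₀ (j α) = j α := by
    intro τ₀ hτ₀
    let t : L →ₐ[K] L := (τ₀ : L →ₐ[F] L).restrictScalars K
    have ht : ∀ a ∈ AV, AV.valuation (t a - a) < 1 := fun a ha ↦ by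
      rw [← hAVeq.lt_one_iff_lt_one]
      exact inertia_sub_lt w τ₀ hτ₀ a ha
    have ht' : ∀ a ∉ AV, t a ∉ AV := fun a ha ↦ inertia_not_le w τ₀ hτ₀ a ha
    let τ : AlgebraicClosure F ≃ₐ[F] AlgebraicClosure F := τ₀.liftNormal (AlgebraicClosure F)
    have hτ : ∀ x : L, τ x = τ₀ x := AlgEquiv.liftNormal_commutes τ₀ (AlgebraicClosure F)
    let algι : Algebra (AlgebraicClosure K) (AlgebraicClosure F) := ι.toRingHom.toAlgebra
    have towι : IsScalarTower K (AlgebraicClosure K) (AlgebraicClosure F) :=
      IsScalarTower.of_algebraMap_eq' ι.comp_algebraMap.symm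
    let σ : AlgebraicClosure K ≃ₐ[K] AlgebraicClosure K :=
      (τ.restrictScalars K).restrictNormal (AlgebraicClosure K)
    have hσ : ∀ x, ι (σ x) = τ (ι x) := fun x ↦
      AlgEquiv.restrictNormal_commutes (τ.restrictScalars K) (AlgebraicClosure K) x
    have hcomp : (τ.toAlgHom.restrictScalars K).comp ι = ι.comp σ.toAlgHom := by
      ext x; exact (hσ x).symm
    have hgt : (τ.toAlgHom.restrictScalars K).comp g = g.comp t := by
      ext x; exact hτ x
    have hmap : ∀ Q : (W.baseChange L).toAffine.Point,
        (WeierstrassCurve.Affine.Point.map (τ.toAlgHom.restrictScalars K) :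
          (W.baseChange (AlgebraicClosure F)).toAffine.Point →+
            (W.baseChange (AlgebraicClosure F)).toAffine.Point)
          ((WeierstrassCurve.Affine.Point.map g : (W.baseChange L).toAffine.Point →+
            (W.baseChange (AlgebraicClosure F)).toAffine.Point) Q) =
        (WeierstrassCurve.Affine.Point.map g : (W.baseChange L).toAffine.Point →+
            (W.baseChange (AlgebraicClosure F)).toAffine.Point)
          ((WeierstrassCurve.Affine.Point.map t :
            (W.baseChange L).toAffine.Point →+ (W.baseChange L).toAffine.Point) Q) := by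
      intro Q
      rw [WeierstrassCurve.Affine.Point.map_map, WeierstrassCurve.Affine.Point.map_map, hgt]
    have hinjg := WeierstrassCurve.Affine.Point.map_injective (W' := W) (f := g)
    have h1 := hP τ σ hcomp
    rw [← hP', hmap, ← map_sub] at h1
    obtain ⟨S₁, hS₁⟩ := hf σ
    have h6 : (WeierstrassCurve.Affine.Point.map ι :
        (W.baseChange (AlgebraicClosure K)).toAffine.Point →+
          (W.baseChange (AlgebraicClosure F)).toAffine.Point) (f σ) =
        (WeierstrassCurve.Affine.Point.map g : (W.baseChange L).toAffine.Point →+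
          (W.baseChange (AlgebraicClosure F)).toAffine.Point)
            (WeierstrassCurve.Affine.Point.map j S₁) := by
      rw [← hS₁]
      rw [WeierstrassCurve.Affine.Point.map_map, WeierstrassCurve.Affine.Point.map_map]
      rfl
    have h7 : (WeierstrassCurve.Affine.Point.map j : (W.baseChange M).toAffine.Point →+
        (W.baseChange L).toAffine.Point) S₁ = (WeierstrassCurve.Affine.Point.map t :
            (W.baseChange L).toAffine.Point →+ (W.baseChange L).toAffine.Point) P' - P' := by
      apply hinjg
      rw [← h6]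
      exact h1
    have hval : ∀ a : L, AV.valuation (t a) = AV.valuation a := fun a ↦ by
      have h8 : w.valuation L (τ₀ • a) = w.valuation L a := raw_val w τ₀ hτ₀ a
      exact le_antisymm ((hAVeq _ _).1 h8.le) ((hAVeq _ _).1 h8.ge)
    have hZ := hE L AV t hA ht ht' hval j σ S₁ P' hS₁ (raw_dec _ _ _ _ _ _ h7)
    have h3 := hα2 σ hZ
    have h4 : τ (ι α) = ι α := by rw [← hσ, h3]
    apply L.val.injective
    exact (hτ (j α)).symm.trans h4
  obtain ⟨c, hc0, hc⟩ := exists_val_eq w (j α) (by simpa using hα) key
  obtain ⟨k, hk0, u, hu, rfl⟩ := hKF c hc0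
  have h10 : w.valuation L (j (α / algebraMap K M k)) = 1 := by
    rw [map_mul, ← IsScalarTower.algebraMap_apply A F L, ← IsScalarTower.algebraMap_apply K F L,
      map_mul, w_eq_one_of_unit w u hu, mul_one] at hc
    have hne : w.valuation L (algebraMap K L k) ≠ 0 := by
      rw [Valuation.ne_zero_iff]
      exact (map_ne_zero _).mpr hk0
    rw [map_div₀, j.commutes, map_div₀, hc, div_self hne]
  refine ⟨k, hk0, ?_, ?_⟩
  · rw [ValuationSubring.mem_comap]
    exact h10.le
  · rw [ValuationSubring.mem_comap]
    have : w.valuation L (j (α / algebraMap K M k)⁻¹) = 1 := by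
      rw [map_inv₀, map_inv₀, h10, inv_one]
    exact this.le

theorem loc_raw_w {F : Type} [Field F] [NumberField F] (W : WeierstrassCurve F)
    (w : HeightOneSpectrum (𝓞 F))
    (ι : AlgebraicClosure F →ₐ[F] AlgebraicClosure (w.adicCompletion F))
    (M : IntermediateField F (AlgebraicClosure F)) [FiniteDimensional F M]
    (f : Gam F → Pts W) (Z : Gam F → Prop)
    (hf : ∀ σ, ∃ S : (W.baseChange M).toAffine.Point,
      WeierstrassCurve.Affine.Point.map M.val S = f σ)
    (hloc : LocTriv W f w ι)
    (hE : ∀ (L : Type) [Field L] [Algebra F L] (A : ValuationSubring L) (t : L →ₐ[F] L),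
      Iner w A t → ∀ (j : M →ₐ[F] L) (σ : Gam F) (S : (W.baseChange M).toAffine.Point)
        (P : (W.baseChange L).toAffine.Point), WeierstrassCurve.Affine.Point.map M.val S = f σ →
        mp W j S = mp W t P - P → Z σ) :
    ∃ V : ValuationSubring M, (∀ x : F, algebraMap F M x ∈ V ↔ w.valuation F x ≤ 1) ∧
      ∀ α : M, α ≠ 0 → (∀ σ : Gam F, Z σ → σ (α : AlgebraicClosure F) = α) →
        ∃ c : F, c ≠ 0 ∧ α / algebraMap F M c ∈ V ∧ (α / algebraMap F M c)⁻¹ ∈ V := by
  obtain ⟨P, hP⟩ := hloc
  have hch : CharZero (w.adicCompletion F) :=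
    charZero_of_injective_algebraMap (algebraMap F (w.adicCompletion F)).injective
  have mem : ∀ x : F, w.valuation F x ≤ 1 →
      algebraMap F (w.adicCompletion F) x ∈ w.adicCompletionIntegers F := by
    intro x hx
    rw [HeightOneSpectrum.mem_adicCompletionIntegers, valued_alg]
    exact hx
  have hKF : ∀ x : w.adicCompletion F, x ≠ 0 → ∃ k : F, k ≠ 0 ∧
      ∃ u : w.adicCompletionIntegers F, IsUnit u ∧
        x = algebraMap F (w.adicCompletion F) k *
          algebraMap (w.adicCompletionIntegers F) (w.adicCompletion F) u := by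
    intro x hx
    obtain ⟨k, hk⟩ := w.valuation_surjective F (Valued.v x)
    have hvx : Valued.v x ≠ 0 := (Valuation.ne_zero_iff _).mpr hx
    have hk0 : k ≠ 0 := by
      rintro rfl
      rw [map_zero] at hk
      exact hvx hk.symm
    have hk0' : algebraMap F (w.adicCompletion F) k ≠ 0 := (map_ne_zero _).mpr hk0
    have hu : Valued.v (x / algebraMap F (w.adicCompletion F) k) = 1 := by
      rw [map_div₀, valued_alg, hk, div_self hvx]
    refine ⟨k, hk0, ⟨x / algebraMap F (w.adicCompletion F) k, hu.le⟩, ?_, ?_⟩
    · rw [HeightOneSpectrum.adicCompletionIntegers.isUnit_iff_valued_eq_one]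
      exact hu
    · show x = algebraMap F (w.adicCompletion F) k * (x / algebraMap F (w.adicCompletion F) k)
      field_simp
  have hconv : ∀ V : ValuationSubring M, (∀ x : F, algebraMap F M x ∈ V ↔
        ∃ a : w.adicCompletionIntegers F,
          algebraMap (w.adicCompletionIntegers F) (w.adicCompletion F) a =
            algebraMap F (w.adicCompletion F) x) →
      ∀ x : F, algebraMap F M x ∈ V ↔ w.valuation F x ≤ 1 := by
    intro V hV x
    rw [hV]
    constructor
    · rintro ⟨a, ha⟩
      rw [← valued_alg, ← ha]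
      exact a.2
    · intro hx
      exact ⟨⟨_, mem x hx⟩, rfl⟩
  have hunder : ∀ (L : Type) [Field L] [Algebra F L] (AV : ValuationSubring L),
      (∀ x : F, algebraMap F L x ∈ AV ↔
        ∃ a : w.adicCompletionIntegers F,
          algebraMap (w.adicCompletionIntegers F) (w.adicCompletion F) a =
            algebraMap F (w.adicCompletion F) x) →
      ∀ x : F, algebraMap F L x ∈ AV ↔ w.valuation F x ≤ 1 := by
    intro L _ _ AV hA x
    rw [hA]
    constructor
    · rintro ⟨a, ha⟩
      rw [← valued_alg, ← ha]
      exact a.2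
    · intro hx
      exact ⟨⟨_, mem x hx⟩, rfl⟩
  obtain ⟨V, hV1, hV2⟩ := loc_raw F (w.adicCompletion F) (w.adicCompletionIntegers F) hKF W
    ι M f Z hf P hP (fun L _ _ AV t hA h1 h2 h3 j σ S P' hS hSP ↦
      hE L AV t ⟨hunder L AV hA, h1, h2, h3⟩ j σ S P' hS hSP)
  exact ⟨V, hconv V hV1, hV2⟩

end H68SS
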