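import Pool.Agent.H68.SS.Df

/-!
ROW Vc (change of variables on points; about 170 lines).  PROOF.
Mathlib: `C • W` has the coefficients `WeierstrassCurve.variableChange_def` (`a₁ = u⁻¹ (a₁ + 2 s)`, `a₂ = u⁻² (a₂ - s a₁ + 3 r - s²)`, ...), the old coordinates are `x = u² x' + r`, `y = u³ y' + u² s x' + t`, so `x' = newX C x`, `y' = newY C x y`. Write `u` for the unit, `u ≠ 0`, `(u⁻¹ : Fˣ) = (u : F)⁻¹`
(`Units.val_inv_eq_inv_val`).
(1) `vc_nonsingular`: by `WeierstrassCurve.Affine.equation_iff` / `nonsingular_iff`: the equation of `C • W` at `(x', y')` is `u⁻⁶` times the equation of `W` at `(x, y)`; the partial derivatives: `F'_y' = u⁻³ F_y`, `F'_x' = u⁻⁴ (F_x + s F_y)` (up to sign conventions), so they do not vanish both. (`field_simp`, `ring`, `linear_combination`.)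
(2) `exists_vc`: `subst h`. Define `φ 0 = 0`, `φ (some x y h) = some (newX C x) (newY C x y) (vc_nonsingular ..)`. Additivity as in `pm` in `Pool/Agent/H10/Pm.lean`: if `x₁ = x₂ ∧ y₁ = negY x₂ y₂`: `Affine.Point.add_of_Y_eq`, and `newY C x (negY x y) = (C • W).negY (newX C x) (newY C x y)`
(`negY x y = -y - a₁ x - a₃`). Otherwise `Affine.Point.add_some`; the slope satisfies `slope' = u⁻¹ (slope - s)`: `Affine.slope_of_X_ne` if `x₁ ≠ x₂`, `Affine.slope_of_Y_ne` if `x₁ = x₂` (then `y₁ ≠ negY x₂ y₂`); then `addX' = newX (addX)`, `addY' = newY (addX) (addY)` by `field_simp; ring`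
(`Affine.addX`, `Affine.addY`, `Affine.negAddY`). `newX C` is injective.
(3) `vc_map`: for `t : L →+* L'`, both sides are computed on `0` and on `some x y h`: `t (newX C x) = newX (C.map t) (t x)` (`VariableChange.map`, `map_mul`, `map_pow`, `Units.coe_map_inv` etc.).
-/

set_option autoImplicit false
open scoped Classical

open WeierstrassCurve IsDedekindDomain NumberField Pool.Agent.H10 Pool.Agent.H11

namespace H68SS

theorem vc_nonsingular {F : Type} [Field F] (W : WeierstrassCurve F) (C : VariableChange F)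
    {x y : F} (h : W.toAffine.Nonsingular x y) :
    (C • W).toAffine.Nonsingular (newX C x) (newY C x y) := by
  have hv : ((C.u⁻¹ : Fˣ) : F) ≠ 0 := Units.ne_zero _
  rw [Affine.nonsingular_iff', Affine.equation_iff'] at h ⊢
  simp only [variableChange_a₁, variableChange_a₂, variableChange_a₃, variableChange_a₄,
    variableChange_a₆, newX, newY]
  obtain ⟨h1, h2⟩ := h
  generalize ((C.u⁻¹ : Fˣ) : F) = v at hv ⊢
  refine ⟨?_, ?_⟩
  · linear_combination v ^ 6 * h1
  · by_cases hy : 2 * y + W.a₁ * x + W.a₃ = 0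
    · left
      have hx : W.a₁ * y - (3 * x ^ 2 + 2 * W.a₂ * x + W.a₄) ≠ 0 := by
        rcases h2 with h2 | h2
        · exact h2
        · exact absurd hy h2
      intro h3
      apply hx
      have h4 : v ^ 4 * (W.a₁ * y - (3 * x ^ 2 + 2 * W.a₂ * x + W.a₄)) = 0 := by
        linear_combination h3 - v ^ 4 * C.s * hy
      exact (mul_eq_zero.1 h4).resolve_left (pow_ne_zero 4 hv)
    · right
      intro h3
      apply hy
      have h4 : v ^ 3 * (2 * y + W.a₁ * x + W.a₃) = 0 := by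
        linear_combination h3
      exact (mul_eq_zero.1 h4).resolve_left (pow_ne_zero 3 hv)

theorem newX_map {F L : Type} [Field F] [Field L] (t : F →+* L) (C : VariableChange F) (x : F) :
    t (newX C x) = newX (C.map t) (t x) := by
  simp only [newX, VariableChange.map, map_mul, map_pow, map_sub, Units.coe_map_inv,
    MonoidHom.coe_coe]

theorem newY_map {F L : Type} [Field F] [Field L] (t : F →+* L) (C : VariableChange F) (x y : F) :
    t (newY C x y) = newY (C.map t) (t x) (t y) := by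
  simp only [newY, VariableChange.map, map_mul, map_pow, map_sub, Units.coe_map_inv,
    MonoidHom.coe_coe]

theorem Vc_newX_inj {F : Type} [Field F] (C : VariableChange F) {x₁ x₂ : F}
    (h : newX C x₁ = newX C x₂) : x₁ = x₂ := by
  have hv : ((C.u⁻¹ : Fˣ) : F) ≠ 0 := Units.ne_zero _
  unfold newX at h
  have h1 := mul_left_cancel₀ (pow_ne_zero 2 hv) h
  linear_combination h1

theorem Vc_newY_inj {F : Type} [Field F] (C : VariableChange F) {x y₁ y₂ : F}
    (h : newY C x y₁ = newY C x y₂) : y₁ = y₂ := by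
  have hv : ((C.u⁻¹ : Fˣ) : F) ≠ 0 := Units.ne_zero _
  unfold newY at h
  have h1 := mul_left_cancel₀ (pow_ne_zero 3 hv) h
  linear_combination h1

theorem Vc_negY {F : Type} [Field F] (W : WeierstrassCurve F) (C : VariableChange F) (x y : F) :
    (C • W).toAffine.negY (newX C x) (newY C x y) = newY C x (W.toAffine.negY x y) := by
  simp only [Affine.negY, variableChange_a₁, variableChange_a₃, newX, newY]
  ring

theorem Vc_addX {F : Type} [Field F] (W : WeierstrassCurve F) (C : VariableChange F)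
    (x₁ x₂ l : F) :
    (C • W).toAffine.addX (newX C x₁) (newX C x₂) ((C.u⁻¹ : Fˣ) * (l - C.s)) =
      newX C (W.toAffine.addX x₁ x₂ l) := by
  simp only [Affine.addX, variableChange_a₁, variableChange_a₂, newX]
  ring

theorem Vc_addY {F : Type} [Field F] (W : WeierstrassCurve F) (C : VariableChange F)
    (x₁ x₂ y₁ l : F) :
    (C • W).toAffine.addY (newX C x₁) (newX C x₂) (newY C x₁ y₁) ((C.u⁻¹ : Fˣ) * (l - C.s)) =
      newY C (W.toAffine.addX x₁ x₂ l) (W.toAffine.addY x₁ x₂ y₁ l) := by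
  have h1 : (C • W).toAffine.negAddY (newX C x₁) (newX C x₂) (newY C x₁ y₁)
      ((C.u⁻¹ : Fˣ) * (l - C.s)) = newY C (W.toAffine.addX x₁ x₂ l)
        (W.toAffine.negAddY x₁ x₂ y₁ l) := by
    unfold Affine.negAddY
    rw [Vc_addX]
    simp only [newX, newY]
    ring
  unfold Affine.addY
  rw [h1, Vc_addX, Vc_negY]

theorem Vc_slope {F : Type} [Field F] (W : WeierstrassCurve F) (C : VariableChange F)
    {x₁ x₂ y₁ y₂ : F} (h₁ : W.toAffine.Equation x₁ y₁) (h₂ : W.toAffine.Equation x₂ y₂)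
    (hxy : ¬(x₁ = x₂ ∧ y₁ = W.toAffine.negY x₂ y₂)) :
    (C • W).toAffine.slope (newX C x₁) (newX C x₂) (newY C x₁ y₁) (newY C x₂ y₂) =
      (C.u⁻¹ : Fˣ) * (W.toAffine.slope x₁ x₂ y₁ y₂ - C.s) := by
  have hv : ((C.u⁻¹ : Fˣ) : F) ≠ 0 := Units.ne_zero _
  by_cases hx : x₁ = x₂
  · have hy : y₁ ≠ W.toAffine.negY x₂ y₂ := fun h => hxy ⟨hx, h⟩
    have hyy : y₁ = y₂ := Affine.Y_eq_of_Y_ne h₁ h₂ hx hy
    have hD : y₁ - W.toAffine.negY x₁ y₁ ≠ 0 := by
      rw [sub_ne_zero]
      intro h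
      apply hy
      rw [← hx, ← hyy]
      exact h
    have hy' : newY C x₁ y₁ ≠ (C • W).toAffine.negY (newX C x₂) (newY C x₂ y₂) := by
      rw [Vc_negY, hx]
      intro h
      exact hy (Vc_newY_inj C h)
    rw [Affine.slope_of_Y_ne hx hy, Affine.slope_of_Y_ne (by rw [hx]) hy', Vc_negY]
    have hden : newY C x₁ y₁ - newY C x₁ (W.toAffine.negY x₁ y₁) =
        ((C.u⁻¹ : Fˣ) : F) ^ 3 * (y₁ - W.toAffine.negY x₁ y₁) := by
      unfold newY
      ring
    rw [hden]
    have hnum : 3 * newX C x₁ ^ 2 + 2 * (C • W).toAffine.a₂ * newX C x₁ + (C • W).toAffine.a₄ -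
        (C • W).toAffine.a₁ * newY C x₁ y₁ = ((C.u⁻¹ : Fˣ) : F) ^ 4 *
          (3 * x₁ ^ 2 + 2 * W.toAffine.a₂ * x₁ + W.toAffine.a₄ - W.toAffine.a₁ * y₁ -
            C.s * (y₁ - W.toAffine.negY x₁ y₁)) := by
      simp only [Affine.negY, variableChange_a₁, variableChange_a₂, variableChange_a₄, newX, newY]
      ring
    rw [hnum]
    generalize ((C.u⁻¹ : Fˣ) : F) = v at hv ⊢
    generalize y₁ - W.toAffine.negY x₁ y₁ = D at hD ⊢
    generalize 3 * x₁ ^ 2 + 2 * W.toAffine.a₂ * x₁ + W.toAffine.a₄ - W.toAffine.a₁ * y₁ = N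
    field_simp
  · have hx' : newX C x₁ ≠ newX C x₂ := fun h => hx (Vc_newX_inj C h)
    rw [Affine.slope_of_X_ne hx, Affine.slope_of_X_ne hx']
    have hd : x₁ - x₂ ≠ 0 := sub_ne_zero.2 hx
    have e1 : newY C x₁ y₁ - newY C x₂ y₂ = ((C.u⁻¹ : Fˣ) : F) ^ 3 *
        ((y₁ - y₂) - C.s * (x₁ - x₂)) := by
      unfold newY
      ring
    have e2 : newX C x₁ - newX C x₂ = ((C.u⁻¹ : Fˣ) : F) ^ 2 * (x₁ - x₂) := by
      unfold newX
      ring
    rw [e1, e2]
    generalize ((C.u⁻¹ : Fˣ) : F) = v at hv ⊢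
    generalize x₁ - x₂ = D at hd ⊢
    generalize y₁ - y₂ = N
    field_simp

/-- The map on points, as a function. -/
noncomputable def Vc_fun {F : Type} [Field F] (W : WeierstrassCurve F) (C : VariableChange F) :
    W.toAffine.Point → (C • W).toAffine.Point
  | 0 => 0
  | .some x y h => .some (newX C x) (newY C x y) (vc_nonsingular W C h)

theorem Vc_some {F : Type} [Field F] (W : WeierstrassCurve F) (C : VariableChange F) {x y : F}
    (h : W.toAffine.Nonsingular x y) : Vc_fun W C (.some x y h) =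
      .some (newX C x) (newY C x y) (vc_nonsingular W C h) := rfl

theorem Vc_add {F : Type} [Field F] (W : WeierstrassCurve F) (C : VariableChange F)
    (P Q : W.toAffine.Point) : Vc_fun W C (P + Q) = Vc_fun W C P + Vc_fun W C Q := by
  rcases P with _ | ⟨x₁, y₁, h₁⟩
  · change Vc_fun W C (0 + Q) = 0 + Vc_fun W C Q
    rw [zero_add, zero_add]
  rcases Q with _ | ⟨x₂, y₂, h₂⟩
  · change Vc_fun W C (_ + 0) = _ + 0
    rw [add_zero, add_zero]
  by_cases hxy : x₁ = x₂ ∧ y₁ = W.toAffine.negY x₂ y₂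
  · rw [Affine.Point.add_of_Y_eq hxy.left hxy.right, Vc_some, Vc_some,
      Affine.Point.add_of_Y_eq (by rw [hxy.left]) (by
        rw [Vc_negY, ← hxy.right, hxy.left])]
    rfl
  · rw [Affine.Point.add_some hxy, Vc_some, Vc_some, Vc_some]
    have hxy' : ¬(newX C x₁ = newX C x₂ ∧
        newY C x₁ y₁ = (C • W).toAffine.negY (newX C x₂) (newY C x₂ y₂)) := by
      rintro ⟨ha, hb⟩
      have hx := Vc_newX_inj C ha
      rw [Vc_negY, hx] at hb
      exact hxy ⟨hx, Vc_newY_inj C hb⟩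
    rw [Affine.Point.add_some hxy', Affine.Point.some.injEq]
    have hs := Vc_slope W C h₁.1 h₂.1 hxy
    constructor
    · rw [hs, Vc_addX]
    · rw [hs, Vc_addY]

theorem exists_vc {F : Type} [Field F] {W W' : WeierstrassCurve F} (C : VariableChange F)
    (h : C • W = W') : ∃ φ : W.toAffine.Point →+ W'.toAffine.Point, Function.Injective φ ∧
    ∀ (x y : F) (hxy : W.toAffine.Nonsingular x y), ∃ h', φ (Affine.Point.some x y hxy) =
      Affine.Point.some (newX C x) (newY C x y) h' := by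
  subst h
  refine ⟨AddMonoidHom.mk' (Vc_fun W C) (Vc_add W C), ?_, ?_⟩
  · rintro (_ | ⟨x₁, y₁, h₁⟩) (_ | ⟨x₂, y₂, h₂⟩) H
    · rfl
    · exact absurd H.symm (Affine.Point.some_ne_zero _)
    · exact absurd H (Affine.Point.some_ne_zero _)
    · have H' : Vc_fun W C (.some x₁ y₁ h₁) = Vc_fun W C (.some x₂ y₂ h₂) := H
      rw [Vc_some, Vc_some, Affine.Point.some.injEq] at H'
      rw [Affine.Point.some.injEq]
      have hx := Vc_newX_inj C H'.1
      refine ⟨hx, ?_⟩
      have hb := H'.2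
      rw [hx] at hb
      exact Vc_newY_inj C hb
  · intro x y hxy
    exact ⟨vc_nonsingular W C hxy, rfl⟩

end H68SS
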